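import Mathlib

/-!
Symmetric powers and the `μ`-invariant (MP_519cc8_nt): statements about points in general position.
Only Mathlib is used.
-/

set_option autoImplicit false

namespace Pool.Agent.K6.H87.SP

open MvPolynomial

/-- `B z` for a matrix `B` over `F` and a vector `z` over `L` -/
def act {F L κ : Type} [Field F] [Field L] [Algebra F L] [Fintype κ] (B : Matrix κ κ F)
    (z : κ → L) : κ → L :=
  (B.map (algebraMap F L)).mulVec z

/-- PIECE GEN: a general point over an infinite field. -/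
def S_GEN : Prop := ∀ (F L κ I : Type) [Field F] [Field L] [Algebra F L] [Infinite L] [Fintype κ]
  [DecidableEq κ] [Fintype I] (B : I → Matrix κ κ F) (h : MvPolynomial κ L), h ≠ 0 →
  (∀ q, IsUnit (B q)) → (∀ q q', q ≠ q' → ∀ c : F, B q ≠ c • B q') →
  ∃ y : κ → L, (∀ q, eval (act (B q) y) h ≠ 0) ∧
    ∀ q q', q ≠ q' → ∃ w : κ → L,
      ∑ k, w k * act (B q) y k ≠ 0 ∧ ∑ k, w k * act (B q') y k = 0

/-- PIECE GRD: forms of degree `m` which separate the points `B q (y i)`, over an infinite field. -/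
def S_GRD : Prop := ∀ (F L κ I : Type) [Field F] [Field L] [Algebra F L] [Infinite L] [Fintype κ]
  [DecidableEq κ] [Nonempty κ] [Fintype I] [DecidableEq I] (B : I → Matrix κ κ F) (m N : ℕ),
  (∀ q, IsUnit (B q)) → (∀ q q', q ≠ q' → ∀ c : F, B q ≠ c • B q') →
  Fintype.card I ≤ m + 1 →
  (N - 1) * Fintype.card I <
    (Fintype.card κ + (m + 1 - Fintype.card I) - 1).choose (m + 1 - Fintype.card I) →
  ∃ (y : Fin N → κ → L) (Q : Fin N → I → MvPolynomial κ L),
    (∀ i q, (Q i q).IsHomogeneous m) ∧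
    ∀ i q l q', eval (act (B q') (y l)) (Q i q) = if l = i ∧ q' = q then 1 else 0

/-- PIECE FIN: forms of degree `m` which separate the points `B q (y i)`, over a finite extension. -/
def S_FIN : Prop := ∀ (F κ I : Type) [Field F] [Fintype κ] [DecidableEq κ] [Nonempty κ]
  [Fintype I] [DecidableEq I] (B : I → Matrix κ κ F) (m N : ℕ),
  (∀ q, IsUnit (B q)) → (∀ q q', q ≠ q' → ∀ c : F, B q ≠ c • B q') →
  Fintype.card I ≤ m + 1 →
  (N - 1) * Fintype.card I <
    (Fintype.card κ + (m + 1 - Fintype.card I) - 1).choose (m + 1 - Fintype.card I) →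
  ∃ (K : Type) (_ : Field K) (_ : Algebra F K), Module.Finite F K ∧
    ∃ (y : Fin N → κ → K) (Q : Fin N → I → MvPolynomial κ K),
      (∀ i q, (Q i q).IsHomogeneous m) ∧
      ∀ i q l q', eval (act (B q') (y l)) (Q i q) = if l = i ∧ q' = q then 1 else 0

/-- PIECE DEC: the coordinates of a form in a basis of the extension. -/
def S_DEC : Prop := ∀ (F K κ : Type) [Field F] [Field K] [Algebra F K] (d : ℕ)
  (ω : Module.Basis (Fin d) F K) (m : ℕ) (P : MvPolynomial κ K), P.IsHomogeneous m →
  ∃ p : Fin d → MvPolynomial κ F, (∀ b, (p b).IsHomogeneous m) ∧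
    ∀ z : κ → K, eval z P = ∑ b, ω b * aeval z (p b)

end Pool.Agent.K6.H87.SP
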