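import Mathlib
import Pool.Agent.K6.H87.SP.Stm

/-!
# Piece DEC: the coordinates of a form in a basis of the extension
-/

set_option autoImplicit false

namespace Pool.Agent.K6.H87.SP

open MvPolynomial

theorem t_DEC : S_DEC := by
  intro F K κ _ _ _ d ω m P hP
  refine ⟨fun b => ∑ s ∈ P.support, monomial s (ω.repr (coeff s P) b), fun b => ?_, fun z => ?_⟩
  · refine IsHomogeneous.sum _ _ _ fun s hs => isHomogeneous_monomial _ ?_
    rw [Finsupp.degree_eq_weight_one]
    exact hP (mem_support_iff.1 hs)
  · have h1 : ∀ b, aeval z (∑ s ∈ P.support, monomial s (ω.repr (coeff s P) b)) =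
        ∑ s ∈ P.support, algebraMap F K (ω.repr (coeff s P) b) * s.prod fun i n => z i ^ n := by
      intro b
      rw [map_sum]
      exact Finset.sum_congr rfl fun s _ => aeval_monomial _ _ _
    simp only [h1, Finset.mul_sum]
    rw [Finset.sum_comm, eval_eq]
    refine Finset.sum_congr rfl fun s _ => ?_
    have h2 : coeff s P = ∑ b, ω.repr (coeff s P) b • ω b := (ω.sum_repr _).symm
    conv_lhs => rw [h2]
    rw [Finset.sum_mul]
    refine Finset.sum_congr rfl fun b _ => ?_
    rw [Algebra.smul_def, Finsupp.prod]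
    ring

end Pool.Agent.K6.H87.SP
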