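import Mathlib
import Pool.Agent.K6.H87.SP.Stm

/-!
# Piece FIN: descent from the algebraic closure to a finite extension
-/

set_option autoImplicit false

namespace Pool.Agent.K6.H87.SP

open MvPolynomial

namespace FinP

lemma map_act {F K L κ : Type} [Field F] [Field K] [Field L] [Algebra F K] [Algebra K L]
    [Algebra F L] [IsScalarTower F K L] [Fintype κ] (B : Matrix κ κ F) (z : κ → K) (k : κ) :
    algebraMap K L (act B z k) = act B (fun k => algebraMap K L (z k)) k := by
  rw [act, act, Matrix.mulVec, Matrix.mulVec, dotProduct, dotProduct, map_sum]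
  refine Finset.sum_congr rfl fun j _ => ?_
  rw [map_mul, Matrix.map_apply, Matrix.map_apply, ← IsScalarTower.algebraMap_apply]

lemma map_eval' {K L κ : Type} [Field K] [Field L] [Algebra K L] (z : κ → K)
    (P : MvPolynomial κ K) : algebraMap K L (eval z P) =
      eval (fun k => algebraMap K L (z k)) (MvPolynomial.map (algebraMap K L) P) := by
  induction P using MvPolynomial.induction_on with
  | C a => simp
  | add p q hp hq => rw [map_add, map_add, map_add, map_add, hp, hq]
  | mul_X p k hp => rw [map_mul, map_mul, map_mul, map_mul, hp, eval_X, map_X, eval_X]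

end FinP

open FinP in
theorem t_FIN (h : S_GRD) : S_FIN := by
  intro F κ I _ _ _ _ _ _ B m N hB hBB hI hN
  obtain ⟨y, Q, h1, h2⟩ := h F (AlgebraicClosure F) κ I B m N hB hBB hI hN
  let S : Set (AlgebraicClosure F) := (Set.range fun p : Fin N × κ => y p.1 p.2) ∪
    ⋃ p : Fin N × I, (fun s => coeff s (Q p.1 p.2)) '' ((Q p.1 p.2).support : Set (κ →₀ ℕ))
  have hS : ∀ l k, y l k ∈ IntermediateField.adjoin F S := fun l k =>
    IntermediateField.subset_adjoin _ _ (Or.inl ⟨(l, k), rfl⟩)
  have hQ : ∀ i q s, coeff s (Q i q) ∈ IntermediateField.adjoin F S := by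
    intro i q s
    by_cases hs : coeff s (Q i q) = 0
    · rw [hs]
      exact zero_mem _
    · refine IntermediateField.subset_adjoin _ _ (Or.inr ?_)
      exact Set.mem_iUnion.2 ⟨(i, q), s, Finset.mem_coe.2 (mem_support_iff.2 hs), rfl⟩
  have hfinS : S.Finite := (Set.finite_range _).union
    (Set.finite_iUnion fun p => (Finset.finite_toSet _).image _)
  have hfin : FiniteDimensional F (IntermediateField.adjoin F S) := by
    have : Finite S := hfinS.to_subtype
    exact IntermediateField.finiteDimensional_adjoin fun x _ =>
      (Algebra.IsAlgebraic.isAlgebraic (R := F) x).isIntegral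
  let y' : Fin N → κ → IntermediateField.adjoin F S := fun l k => ⟨y l k, hS l k⟩
  let Q' : Fin N → I → MvPolynomial κ (IntermediateField.adjoin F S) := fun i q =>
    ∑ s ∈ (Q i q).support, monomial s ⟨coeff s (Q i q), hQ i q s⟩
  have hmap : ∀ i q, MvPolynomial.map (algebraMap (IntermediateField.adjoin F S)
      (AlgebraicClosure F)) (Q' i q) = Q i q := by
    intro i q
    rw [map_sum]
    simp only [map_monomial]
    exact support_sum_monomial_coeff (Q i q)
  refine ⟨IntermediateField.adjoin F S, inferInstance, inferInstance, hfin, y', Q', ?_, ?_⟩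
  · intro i q
    refine IsHomogeneous.sum _ _ _ fun s hs => isHomogeneous_monomial _ ?_
    rw [Finsupp.degree_eq_weight_one]
    exact h1 i q (mem_support_iff.1 hs)
  · intro i q l q'
    apply (algebraMap (IntermediateField.adjoin F S) (AlgebraicClosure F)).injective
    rw [map_eval', hmap]
    have h3 : (fun k => algebraMap (IntermediateField.adjoin F S) (AlgebraicClosure F)
        (act (B q') (y' l) k)) = act (B q') (y l) := funext fun k => map_act _ _ _
    rw [h3, h2]
    split_ifs <;> simp

end Pool.Agent.K6.H87.SP
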