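import Mathlib

/-!
# The dimension of the space of forms
-/

set_option autoImplicit false

namespace Pool.Agent.K6.H87.SP

theorem finrank_sym (F κ : Type) [Field F] [Fintype κ] [DecidableEq κ] (m : ℕ) :
    Module.finrank F (MvPolynomial.homogeneousSubmodule κ F m) =
      (Fintype.card κ + m - 1).choose m := by
  classical
  let e0 : Sym κ m ≃ {d : κ →₀ ℕ // d.degree = m} :=
    (Sym.equivNatSumOfFintype κ m).trans
      (Equiv.subtypeEquiv (Finsupp.equivFunOnFinite.symm) (fun P => by
        rw [Finsupp.degree_eq_sum]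
        rfl))
  have : Fintype {d : κ →₀ ℕ // d.degree = m} := Fintype.ofEquiv _ e0
  have h1 : Fintype.card {d : κ →₀ ℕ // d.degree = m} = (Fintype.card κ + m - 1).choose m := by
    rw [← Fintype.card_congr e0, Sym.card_sym_eq_choose]
  rw [← h1, MvPolynomial.homogeneousSubmodule_eq_finsupp_supported]
  have h2 := (AddMonoidAlgebra.supportedEquivFinsupp (R := F) (S := F)
    {d : κ →₀ ℕ | d.degree = m})
  rw [LinearEquiv.finrank_eq h2]
  exact Module.finrank_finsupp_self F (ι := {d : κ →₀ ℕ // d.degree = m})

end Pool.Agent.K6.H87.SP
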