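import Pool.Agent.K6.H87.SP.Stm

/-! Piece GEN (helper64): a general point over an infinite field. -/

set_option autoImplicit false

namespace Pool.Agent.K6.H87.SP

open MvPolynomial

namespace GEN

/-- finitely many nonzero polynomials have a common point where they do not vanish -/
theorem exists_ne {σ J L : Type} [Field L] [Infinite L] [Finite J] (f : J → MvPolynomial σ L)
    (hf : ∀ j, f j ≠ 0) : ∃ y : σ → L, ∀ j, eval y (f j) ≠ 0 := by
  classical
  have := Fintype.ofFinite J
  have h1 : (∏ j, f j) ≠ 0 := Finset.prod_ne_zero_iff.2 fun j _ => hf j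
  by_contra h
  push Not at h
  refine h1 (MvPolynomial.funext fun y => ?_)
  rw [map_zero, map_prod]
  obtain ⟨j, hj⟩ := h y
  exact Finset.prod_eq_zero (Finset.mem_univ j) hj

section
variable {F L κ : Type} [Field F] [Field L] [Algebra F L] [Fintype κ] [DecidableEq κ]

/-- two matrices which are not proportional are distinguished by a vector -/
theorem exists_minor (A B : Matrix κ κ F) (hB : IsUnit B) (h : ∀ c : F, A ≠ c • B) :
    ∃ (a b : κ) (u : κ → L), act A u a * act B u b - act A u b * act B u a ≠ 0 := by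
  have hdet : IsUnit B.det := (Matrix.isUnit_iff_isUnit_det B).1 hB
  by_contra hc
  push Not at hc
  obtain ⟨M, hM⟩ : ∃ M, M = A * B⁻¹ := ⟨_, rfl⟩
  have hA : A = M * B := by rw [hM, Matrix.mul_assoc, Matrix.nonsing_inv_mul B hdet, Matrix.mul_one]
  have key : ∀ (z : κ → F) (a b : κ), M.mulVec z a * z b = M.mulVec z b * z a := by
    intro z a b
    have h1 := hc a b (fun k => algebraMap F L ((B⁻¹).mulVec z k))
    have h2 : ∀ C : Matrix κ κ F, act C (fun k => algebraMap F L ((B⁻¹).mulVec z k)) =
        fun k => algebraMap F L ((C * B⁻¹).mulVec z k) := by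
      intro C
      funext k
      rw [← Matrix.mulVec_mulVec]
      simp only [act, Matrix.mulVec, dotProduct, Matrix.map_apply, map_sum, map_mul]
    rw [h2 A, h2 B, Matrix.mul_nonsing_inv B hdet, Matrix.one_mulVec, ← hM] at h1
    simp only [← map_mul, ← map_sub] at h1
    have := (map_eq_zero (algebraMap F L)).1 h1
    exact sub_eq_zero.1 this
  have hoff : ∀ a j, a ≠ j → M a j = 0 := by
    intro a j haj
    have h1 := key (Pi.single j 1) a j
    rw [Matrix.mulVec_single_one] at h1
    simpa [Pi.single_eq_of_ne haj, Matrix.col] using h1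
  have hdiag : ∀ j k, M j j = M k k := by
    intro j k
    by_cases hjk : j = k
    · rw [hjk]
    have h1 := key (Pi.single j 1 + Pi.single k 1) j k
    rw [Matrix.mulVec_add, Matrix.mulVec_single_one, Matrix.mulVec_single_one] at h1
    simpa [Matrix.col, Pi.single_eq_of_ne hjk, Pi.single_eq_of_ne (Ne.symm hjk),
      hoff j k hjk, hoff k j (Ne.symm hjk)] using h1
  rcases isEmpty_or_nonempty κ with hκ | ⟨⟨j⟩⟩
  · exact h 0 (Matrix.ext fun i => (IsEmpty.false i).elim)
  · refine h (M j j) ?_
    have : M = (M j j) • (1 : Matrix κ κ F) := by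
      ext a b
      by_cases hab : a = b
      · subst hab; simp [hdiag a j]
      · simp [hoff a b hab, Matrix.one_apply_ne hab]
    rw [hA]
    conv_lhs => rw [this]
    rw [Matrix.smul_mul, Matrix.one_mul]

end

section
variable {F L κ : Type} [Field F] [Field L] [Algebra F L] [Fintype κ]

/-- the coordinates of `B X` -/
noncomputable def lin (B : Matrix κ κ F) (k : κ) : MvPolynomial κ L :=
  ∑ j, C (algebraMap F L (B k j)) * X j

theorem eval_lin (B : Matrix κ κ F) (k : κ) (y : κ → L) :
    eval y (lin B k : MvPolynomial κ L) = act B y k := by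
  simp [lin, act, Matrix.mulVec, dotProduct]

end

end GEN

open GEN in
theorem t_GEN : S_GEN := by
  classical
  intro F L κ I _ _ _ _ _ _ _ B h hh hB hne
  -- the polynomials `h (B_q x)`
  have hwe : ∀ q (y : κ → L), eval y (bind₁ (fun k => (lin (B q) k : MvPolynomial κ L)) h) =
      eval (act (B q) y) h := by
    intro q y
    have h1 : (eval y).comp (bind₁ (fun k => (lin (B q) k : MvPolynomial κ L))).toRingHom =
        eval (act (B q) y) := by
      refine MvPolynomial.ringHom_ext (fun c => ?_) fun k => ?_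
      · simp
      · simp [eval_lin]
    exact congrArg (fun φ : MvPolynomial κ L →+* L => φ h) h1
  have hw0 : ∀ q, bind₁ (fun k => (lin (B q) k : MvPolynomial κ L)) h ≠ 0 := by
    intro q h0
    obtain ⟨y, hy⟩ := exists_ne (fun _ : Unit => h) (fun _ => hh)
    have hdet : IsUnit (B q).det := (Matrix.isUnit_iff_isUnit_det _).1 (hB q)
    have hinv : act (B q) (act (B q)⁻¹ y) = y := by
      rw [act, act, Matrix.mulVec_mulVec, ← Matrix.map_mul, Matrix.mul_nonsing_inv _ hdet]
      rw [Matrix.map_one _ (map_zero _) (map_one _), Matrix.one_mulVec]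
    have h1 := hwe q (act (B q)⁻¹ y)
    rw [h0, map_zero, hinv] at h1
    exact hy () h1.symm
  choose a b u hu using fun (p : {p : I × I // p.1 ≠ p.2}) =>
    exists_minor (L := L) (B p.1.1) (B p.1.2) (hB _) (hne _ _ p.2)
  obtain ⟨m, hm⟩ : ∃ m : {p : I × I // p.1 ≠ p.2} → MvPolynomial κ L,
      ∀ p, m p = lin (B p.1.1) (a p) * lin (B p.1.2) (b p) -
        lin (B p.1.1) (b p) * lin (B p.1.2) (a p) := ⟨_, fun _ => rfl⟩
  have hm0 : ∀ p, m p ≠ 0 := by
    intro p h0
    refine hu p ?_
    have h1 := congrArg (eval (u p)) h0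
    rw [hm, map_sub, map_mul, map_mul, eval_lin, eval_lin, eval_lin, eval_lin, map_zero] at h1
    exact h1
  obtain ⟨y, hy⟩ := exists_ne (J := I ⊕ {p : I × I // p.1 ≠ p.2})
    (fun j => match j with
      | Sum.inl x => bind₁ (fun k => (lin (B x) k : MvPolynomial κ L)) h
      | Sum.inr x => m x) (by
      rintro (x | x)
      · exact hw0 _
      · exact hm0 _)
  refine ⟨y, fun q => ?_, fun q q' hq => ?_⟩
  · have := hy (Sum.inl q)
    simp only at this
    rwa [hwe] at this
  · have := hy (Sum.inr ⟨(q, q'), hq⟩)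
    simp only at this
    rw [hm, map_sub, map_mul, map_mul, eval_lin, eval_lin, eval_lin, eval_lin] at this
    refine ⟨Pi.single (a ⟨(q, q'), hq⟩) (act (B q') y (b ⟨(q, q'), hq⟩)) -
      Pi.single (b ⟨(q, q'), hq⟩) (act (B q') y (a ⟨(q, q'), hq⟩)), ?_, ?_⟩
    · simp only [Pi.sub_apply, sub_mul, Finset.sum_sub_distrib]
      rw [Finset.sum_eq_single (a ⟨(q, q'), hq⟩) (fun k _ hk => by
          rw [Pi.single_eq_of_ne hk, zero_mul]) (fun h => absurd (Finset.mem_univ _) h),
        Finset.sum_eq_single (b ⟨(q, q'), hq⟩) (fun k _ hk => by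
          rw [Pi.single_eq_of_ne hk, zero_mul]) (fun h => absurd (Finset.mem_univ _) h),
        Pi.single_eq_same, Pi.single_eq_same]
      intro h0
      refine this ?_
      linear_combination h0
    · simp only [Pi.sub_apply, sub_mul, Finset.sum_sub_distrib]
      rw [Finset.sum_eq_single (a ⟨(q, q'), hq⟩) (fun k _ hk => by
          rw [Pi.single_eq_of_ne hk, zero_mul]) (fun h => absurd (Finset.mem_univ _) h),
        Finset.sum_eq_single (b ⟨(q, q'), hq⟩) (fun k _ hk => by
          rw [Pi.single_eq_of_ne hk, zero_mul]) (fun h => absurd (Finset.mem_univ _) h),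
        Pi.single_eq_same, Pi.single_eq_same]
      ring

end Pool.Agent.K6.H87.SP
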