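import Pool.Agent.K6.H87.SP.Stm

set_option autoImplicit false

namespace Pool.Agent.K6.H87.SP

open MvPolynomial

namespace GRD

section dim
variable {L κ J : Type} [Field L] [Fintype κ] [DecidableEq κ] [Fintype J]

/-- the form with given coefficients -/
noncomputable def fm (s : ℕ) (a : Sym κ s → L) : MvPolynomial κ L :=
  ∑ σ : Sym κ s, monomial (Multiset.toFinsupp (σ : Multiset κ)) (a σ)

theorem fm_hom (s : ℕ) (a : Sym κ s → L) : (fm s a).IsHomogeneous s := by
  refine IsHomogeneous.sum _ _ _ fun σ _ => isHomogeneous_monomial _ ?_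
  have h1 := Multiset.toFinsupp_sum_eq (σ : Multiset κ)
  rw [Sym.card_coe] at h1
  exact h1

theorem fm_ne (s : ℕ) (a : Sym κ s → L) (ha : a ≠ 0) : fm s a ≠ 0 := by
  obtain ⟨τ, hτ⟩ := Function.ne_iff.1 ha
  intro h
  apply hτ
  have h1 : (fm s a).coeff (Multiset.toFinsupp (τ : Multiset κ)) = 0 := by rw [h, coeff_zero]
  unfold fm at h1
  rw [coeff_sum, Finset.sum_eq_single τ] at h1
  · rw [coeff_monomial, if_pos rfl] at h1
    exact h1
  · intro σ _ hσ
    rw [coeff_monomial, if_neg]
    intro h2
    apply hσ
    exact Sym.coe_injective (Multiset.toFinsupp.injective h2)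
  · intro h2
    exact absurd (Finset.mem_univ _) h2

theorem exists_form (s : ℕ) (z : J → κ → L)
    (hlt : Fintype.card J < (Fintype.card κ + s - 1).choose s) :
    ∃ h : MvPolynomial κ L, h ≠ 0 ∧ h.IsHomogeneous s ∧ ∀ j, eval (z j) h = 0 := by
  let T : (Sym κ s → L) →ₗ[L] (J → L) :=
    { toFun := fun a j => eval (z j) (fm s a)
      map_add' := by
        intro a b
        funext j
        show eval (z j) (fm s (a + b)) = eval (z j) (fm s a) + eval (z j) (fm s b)
        rw [← map_add]
        congr 1
        unfold fm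
        rw [← Finset.sum_add_distrib]
        exact Finset.sum_congr rfl fun σ _ => map_add _ _ _
      map_smul' := by
        intro c a
        funext j
        show eval (z j) (fm s (c • a)) = c * eval (z j) (fm s a)
        have h1 : fm s (c • a) = C c * fm s a := by
          unfold fm
          rw [Finset.mul_sum]
          refine Finset.sum_congr rfl fun σ _ => ?_
          rw [C_mul_monomial]
          rfl
        rw [h1, map_mul, eval_C] }
  have h1 : LinearMap.ker T ≠ ⊥ := by
    apply LinearMap.ker_ne_bot_of_finrank_lt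
    rw [Module.finrank_fintype_fun_eq_card, Module.finrank_fintype_fun_eq_card,
      Sym.card_sym_eq_choose]
    exact hlt
  obtain ⟨a, ha, ha0⟩ := Submodule.exists_mem_ne_zero_of_ne_bot h1
  exact ⟨fm s a, fm_ne s a ha0, fm_hom s a, fun j => congrFun (LinearMap.mem_ker.1 ha) j⟩

end dim

end GRD

open GRD in
theorem t_GRD (hG : S_GEN) : S_GRD := by
  intro F L κ I _ _ _ _ _ _ _ _ _ B m N hB hBB hD
  induction N with
  | zero => exact fun _ => ⟨fun i => i.elim0, fun i => i.elim0, fun i => i.elim0, fun i => i.elim0⟩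
  | succ N ih =>
    intro hlt
    rw [Nat.add_sub_cancel] at hlt
    obtain ⟨y, Q, hQ1, hQ2⟩ := ih (lt_of_le_of_lt (Nat.mul_le_mul_right _ (Nat.sub_le N 1)) hlt)
    obtain ⟨h, h0, h1, h2⟩ := exists_form (m + 1 - Fintype.card I)
      (fun j : Fin N × I => act (B j.2) (y j.1)) (by
        rw [Fintype.card_prod, Fintype.card_fin]
        exact hlt)
    obtain ⟨x, hx1, hx2⟩ := hG F L κ I B h h0 hB hBB
    choose w hw1 hw2 using hx2
    classical
    -- the linear forms
    let lf : I → I → MvPolynomial κ L := fun q0 q =>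
      if hq : q0 ≠ q then ∑ k, C (w q0 q hq k) * X k else 1
    have lf_eval : ∀ (q0 q : I) (hq : q0 ≠ q) (z : κ → L),
        eval z (lf q0 q) = ∑ k, w q0 q hq k * z k := by
      intro q0 q hq z
      show eval z (if hq : q0 ≠ q then ∑ k, C (w q0 q hq k) * X k else 1) = _
      rw [dif_pos hq, map_sum]
      refine Finset.sum_congr rfl fun k _ => ?_
      rw [map_mul, eval_C, eval_X]
    have lf_hom : ∀ (q0 q : I), q0 ≠ q → (lf q0 q).IsHomogeneous 1 := by
      intro q0 q hq
      show (if hq : q0 ≠ q then ∑ k, C (w q0 q hq k) * X k else 1 :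
        MvPolynomial κ L).IsHomogeneous 1
      rw [dif_pos hq]
      refine IsHomogeneous.sum _ _ _ fun k _ => ?_
      have := (isHomogeneous_C κ (w q0 q hq k)).mul (isHomogeneous_X L k)
      rwa [zero_add] at this
    let P : I → MvPolynomial κ L := fun q0 => h * ∏ q ∈ Finset.univ.erase q0, lf q0 q
    have P_hom : ∀ q0, (P q0).IsHomogeneous m := by
      intro q0
      have e1 : (∏ q ∈ Finset.univ.erase q0, lf q0 q).IsHomogeneous
          (∑ q ∈ Finset.univ.erase q0, 1) :=
        IsHomogeneous.prod _ _ _ fun q hq => lf_hom q0 q (Finset.ne_of_mem_erase hq).symm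
      have e2 := h1.mul e1
      have e3 : m + 1 - Fintype.card I + ∑ q ∈ Finset.univ.erase q0, 1 = m := by
        have : 0 < Fintype.card I := Fintype.card_pos_iff.2 ⟨q0⟩
        rw [Finset.sum_const, Finset.card_erase_of_mem (Finset.mem_univ _), Finset.card_univ,
          smul_eq_mul, mul_one]
        omega
      rwa [e3] at e2
    have P_zero : ∀ q0 q, q0 ≠ q → eval (act (B q) x) (P q0) = 0 := by
      intro q0 q hq
      show eval (act (B q) x) (h * ∏ q ∈ Finset.univ.erase q0, lf q0 q) = 0
      rw [map_mul, map_prod, Finset.prod_eq_zero (Finset.mem_erase.2 ⟨hq.symm, Finset.mem_univ q⟩),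
        mul_zero]
      rw [lf_eval q0 q hq, hw2 q0 q hq]
    have P_ne : ∀ q0, eval (act (B q0) x) (P q0) ≠ 0 := by
      intro q0
      show eval (act (B q0) x) (h * ∏ q ∈ Finset.univ.erase q0, lf q0 q) ≠ 0
      rw [map_mul, map_prod]
      refine mul_ne_zero (hx1 q0) (Finset.prod_ne_zero_iff.2 fun q hq => ?_)
      rw [lf_eval q0 q (Finset.ne_of_mem_erase hq).symm]
      exact hw1 q0 q (Finset.ne_of_mem_erase hq).symm
    have P_old : ∀ q0 l q, eval (act (B q) (y l)) (P q0) = 0 := by
      intro q0 l q
      show eval (act (B q) (y l)) (h * ∏ q ∈ Finset.univ.erase q0, lf q0 q) = 0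
      rw [map_mul, h2 (l, q), zero_mul]
    let R : I → MvPolynomial κ L := fun q0 => C (eval (act (B q0) x) (P q0))⁻¹ * P q0
    have R_hom : ∀ q0, (R q0).IsHomogeneous m := by
      intro q0
      have := (isHomogeneous_C κ (eval (act (B q0) x) (P q0))⁻¹).mul (P_hom q0)
      rwa [zero_add] at this
    have R_new : ∀ q0 q, eval (act (B q) x) (R q0) = if q = q0 then 1 else 0 := by
      intro q0 q
      show eval (act (B q) x) (C (eval (act (B q0) x) (P q0))⁻¹ * P q0) = _
      rw [map_mul, eval_C]
      split_ifs with hq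
      · subst hq
        exact inv_mul_cancel₀ (P_ne q)
      · rw [P_zero q0 q (Ne.symm hq), mul_zero]
    have R_old : ∀ q0 l q, eval (act (B q) (y l)) (R q0) = 0 := by
      intro q0 l q
      show eval (act (B q) (y l)) (C (eval (act (B q0) x) (P q0))⁻¹ * P q0) = _
      rw [map_mul, P_old, mul_zero]
    let y' : Fin (N + 1) → κ → L := Fin.lastCases (motive := fun _ => κ → L) x y
    let Q' : Fin (N + 1) → I → MvPolynomial κ L :=
      Fin.lastCases (motive := fun _ => I → MvPolynomial κ L) R
        (fun i q => Q i q - ∑ q0, C (eval (act (B q0) x) (Q i q)) * R q0)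
    have y_last : y' (Fin.last N) = x := Fin.lastCases_last
    have y_cast : ∀ l : Fin N, y' l.castSucc = y l := fun l => Fin.lastCases_castSucc l
    have Q_last : Q' (Fin.last N) = R := Fin.lastCases_last
    have Q_cast : ∀ i : Fin N, Q' i.castSucc =
        fun q => Q i q - ∑ q0, C (eval (act (B q0) x) (Q i q)) * R q0 :=
      fun i => Fin.lastCases_castSucc i
    refine ⟨y', Q', ?_, ?_⟩
    · intro i
      refine Fin.lastCases ?_ (fun i => ?_) i
      · rw [Q_last]
        exact R_hom
      · rw [Q_cast]
        intro q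
        refine (hQ1 i q).sub (IsHomogeneous.sum _ _ _ fun q0 _ => ?_)
        have := (isHomogeneous_C κ (eval (act (B q0) x) (Q i q))).mul (R_hom q0)
        rwa [zero_add] at this
    · intro i q l q'
      refine Fin.lastCases ?_ (fun i => ?_) i <;> refine Fin.lastCases ?_ (fun l => ?_) l
      · rw [y_last, Q_last, R_new]
        simp
      · rw [y_cast, Q_last, R_old]
        have : l.castSucc ≠ Fin.last N := (Fin.castSucc_lt_last l).ne
        rw [if_neg (fun h => this h.1)]
      · rw [y_last, Q_cast]
        show eval (act (B q') x) (Q i q - ∑ q0, C (eval (act (B q0) x) (Q i q)) * R q0) = _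
        have : Fin.last N ≠ i.castSucc := (Fin.castSucc_lt_last i).ne'
        rw [if_neg (fun h => this h.1), map_sub, map_sum, Finset.sum_eq_single q', map_mul, eval_C,
          R_new, if_pos rfl, mul_one, sub_self]
        · intro q0 _ hq0
          rw [map_mul, R_new, if_neg (Ne.symm hq0), mul_zero]
        · intro h
          exact absurd (Finset.mem_univ _) h
      · rw [y_cast, Q_cast]
        show eval (act (B q') (y l)) (Q i q - ∑ q0, C (eval (act (B q0) x) (Q i q)) * R q0) = _
        rw [map_sub, map_sum, hQ2 i q l q', Finset.sum_eq_zero, sub_zero]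
        · simp only [Fin.castSucc_inj]
        · intro q0 _
          rw [map_mul, R_old, mul_zero]

end Pool.Agent.K6.H87.SP
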