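import Pool.Agent.K6.H87.SP.Up

/-!
Symmetric powers and the `μ`-invariant (MP_519cc8_nt): the induced representation.
-/

set_option autoImplicit false
set_option linter.unusedSectionVars false

open Module

namespace Pool.Agent.K6.H87.SP

open Pool.Agent.K6.H45.MU

variable {F : Type} [Field F] {𝔊 : Type} [Group 𝔊] [TopologicalSpace 𝔊] [IsTopologicalGroup 𝔊]
variable {κ : Type} [Fintype κ] [DecidableEq κ]

/-- the functions `f : 𝔊 → F` with `f g' = c ^ m * f g` whenever `A g' = c • A g` -/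
def Hm (A : 𝔊 →* Matrix κ κ F) (m : ℕ) : Type := hom A m

instance Hm.acg (A : 𝔊 →* Matrix κ κ F) (m : ℕ) : AddCommGroup (Hm A m) :=
  (inferInstance : AddCommGroup (hom A m))

instance Hm.mod (A : 𝔊 →* Matrix κ κ F) (m : ℕ) : Module F (Hm A m) :=
  (inferInstance : Module F (hom A m))

/-- the value of such a function -/
def Hm.ap {A : 𝔊 →* Matrix κ κ F} {m : ℕ} (φ : Hm A m) : 𝔊 → F :=
  Subtype.val (p := fun f => f ∈ hom A m) φ

theorem Hm.prop {A : 𝔊 →* Matrix κ κ F} {m : ℕ} (φ : Hm A m) (g g' : 𝔊) (c : F)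
    (h : A g' = c • A g) : φ.ap g' = c ^ m * φ.ap g :=
  Subtype.prop (p := fun f => f ∈ hom A m) φ g g' c h

/-- such a function from its values -/
def Hm.mk {A : 𝔊 →* Matrix κ κ F} {m : ℕ} (f : 𝔊 → F)
    (h : ∀ (g g' : 𝔊) (c : F), A g' = c • A g → f g' = c ^ m * f g) : Hm A m :=
  (⟨f, h⟩ : hom A m)

theorem Hm.trm {A : 𝔊 →* Matrix κ κ F} {m : ℕ} (φ : Hm A m) (h : 𝔊) (g g' : 𝔊) (c : F)
    (hc : A g' = c • A g) : φ.ap (g' * h) = c ^ m * φ.ap (g * h) :=
  φ.prop _ _ c (by rw [map_mul, hc, map_mul, smul_mul_assoc])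

/-- the right translation -/
def tr (A : 𝔊 →* Matrix κ κ F) (m : ℕ) (h : 𝔊) : Hm A m →ₗ[F] Hm A m where
  toFun φ := Hm.mk (fun g => φ.ap (g * h)) (φ.trm h)
  map_add' _ _ := rfl
  map_smul' _ _ := rfl

theorem tr_one (A : 𝔊 →* Matrix κ κ F) (m : ℕ) : tr A m 1 = 1 := by
  refine LinearMap.ext fun φ => Subtype.ext (funext fun g => ?_)
  show φ.ap (g * 1) = φ.ap g
  rw [mul_one]

theorem tr_mul (A : 𝔊 →* Matrix κ κ F) (m : ℕ) (h h' : 𝔊) :
    tr A m (h * h') = tr A m h * tr A m h' := by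
  refine LinearMap.ext fun φ => Subtype.ext (funext fun g => ?_)
  show φ.ap (g * (h * h')) = φ.ap (g * h * h')
  rw [mul_assoc]

/-- the right translations as a representation -/
def trR (A : 𝔊 →* Matrix κ κ F) (m : ℕ) : Representation F 𝔊 (Hm A m) :=
  ⟨⟨tr A m, tr_one A m⟩, tr_mul A m⟩

theorem trR_cont (A : 𝔊 →* Matrix κ κ F) (hA : IsOpen {g | A g = 1}) (m : ℕ) :
    IsOpen {g : 𝔊 | trR A m g = 1} := by
  refine open_of_ker hA _ fun g hg => ?_
  show tr A m g = 1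
  refine LinearMap.ext fun φ => Subtype.ext (funext fun g' => ?_)
  show φ.ap (g' * g) = φ.ap g'
  rw [φ.prop g' (g' * g) 1 (by rw [map_mul, hg, mul_one, one_smul]), one_pow, one_mul]

theorem Hm.fin (A : 𝔊 →* Matrix κ κ F) (hD : (scal A).index ≠ 0) (m : ℕ) :
    Module.Finite F (Hm A m) := hom_finite A hD m

/-- the representation on the functions `f : 𝔊 → F` with `f g' = c ^ m * f g` whenever
`A g' = c • A g`, by right translation -/
def Ind (A : 𝔊 →* Matrix κ κ F) (hA : IsOpen {g | A g = 1}) (hD : (scal A).index ≠ 0) (m : ℕ) :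
    Rp F 𝔊 where
  N := Hm A m
  fin := Hm.fin A hD m
  ρ := trR A m
  cont := trR_cont A hA m

theorem rk_Ind {Ω : Type} [CommRing Ω] [IsDomain Ω] (C : Coh F 𝔊 Ω) (A : 𝔊 →* Matrix κ κ F)
    (hA : IsOpen {g | A g = 1}) (hD : (scal A).index ≠ 0) (m : ℕ) :
    C.rk (Ind A hA hD m) = C.rk (CC A hA hD m) := by
  let f : Hom (CC A hA hD m) (Ind A hA hD m) :=
    { f := (LinearMap.id : hom A m →ₗ[F] hom A m)
      eq := fun _ _ => rfl }
  exact (rk_eq_of_bij C f Function.bijective_id).symm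

end Pool.Agent.K6.H87.SP
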