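import Pool.Agent.K6.H87.SP.Up

/-!
Symmetric powers and the `μ`-invariant (MP_519cc8_nt): the kernel of a surjection.
-/

set_option autoImplicit false
set_option linter.unusedSectionVars false

open Module

namespace Pool.Agent.K6.H87.SP

open Pool.Agent.K6.H45.MU

variable {F : Type} [Field F] {𝔊 : Type} [Group 𝔊] [TopologicalSpace 𝔊] [IsTopologicalGroup 𝔊]
variable {κ : Type} [Fintype κ] [DecidableEq κ]

/-- the action on the kernel -/
def KER.rho {X Y : Rp F 𝔊} (f : Hom X Y) : Representation F 𝔊 (LinearMap.ker f.f) where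
  toFun g := (X.ρ g).restrict (fun x hx => by
    rw [LinearMap.mem_ker] at hx ⊢
    rw [f.eq, hx, map_zero])
  map_one' := by
    refine LinearMap.ext fun x => Subtype.ext ?_
    show X.ρ 1 x.1 = x.1
    rw [map_one]
    rfl
  map_mul' := fun g h => by
    refine LinearMap.ext fun x => Subtype.ext ?_
    show X.ρ (g * h) x.1 = X.ρ g (X.ρ h x.1)
    rw [map_mul]
    rfl

/-- the kernel as a representation -/
def KER.rp {X Y : Rp F 𝔊} (f : Hom X Y) : Rp F 𝔊 where
  N := LinearMap.ker f.f
  ρ := KER.rho f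
  cont := by
    have h1 : IsOpen ((MonoidHom.ker X.ρ : Subgroup 𝔊) : Set 𝔊) := X.cont
    have h2 : MonoidHom.ker X.ρ ≤ MonoidHom.ker (KER.rho f) := by
      intro g hg
      have h3 : X.ρ g = 1 := hg
      show KER.rho f g = 1
      refine LinearMap.ext fun x => Subtype.ext ?_
      show X.ρ g x.1 = x.1
      rw [h3]
      rfl
    exact Subgroup.isOpen_mono h2 h1

/-- the upper bound through the kernel of a surjection -/
theorem surj_le [Nonempty κ] {Ω : Type} [CommRing Ω] [IsDomain Ω] (C : Coh F 𝔊 Ω)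
    (A : 𝔊 →* Matrix κ κ F) (hA : IsOpen {g | A g = 1}) (hD : (scal A).index ≠ 0) (m : ℕ)
    {X Y : Rp F 𝔊} (f : Hom X Y) (hf : Function.Surjective f.f)
    (hX : ∀ (g : 𝔊) (c : F), A g = c • (1 : Matrix κ κ F) →
      X.ρ g = c ^ m • (1 : X.N →ₗ[F] X.N)) :
    C.rk X + finrank F Y.N * C.rk (CC A hA hD m) ≤
      C.rk Y + finrank F X.N * C.rk (CC A hA hD m) := by
  let i : Hom (KER.rp f) X := ⟨(LinearMap.ker f.f).subtype, fun _ _ => rfl⟩
  have hex : Exact i f := by
    refine ⟨Subtype.val_injective, hf, fun y => ?_⟩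
    constructor
    · intro h
      exact ⟨⟨y, h⟩, rfl⟩
    · rintro ⟨x, rfl⟩
      exact x.2
  have h1 := rk_exact_le C i f hex
  have h2 : Built A m (KER.rp f) := by
    refine Built.base _ fun g c hc => ?_
    refine LinearMap.ext fun x => Subtype.ext ?_
    show X.ρ g x.1 = c ^ m • x.1
    rw [hX g c hc]
    rfl
  have h3 := built_le C A hA hD m (KER.rp f) h2
  have h4 : finrank F (KER.rp f).N + finrank F Y.N = finrank F X.N := by
    have h5 := LinearMap.finrank_range_add_finrank_ker f.f
    rw [LinearMap.range_eq_top.2 hf, finrank_top] at h5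
    show finrank F (LinearMap.ker f.f) + finrank F Y.N = finrank F X.N
    omega
  rw [← h4, add_mul]
  omega

end Pool.Agent.K6.H87.SP
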