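import Pool.Agent.K6.H87.SP.Psi
import Pool.Agent.K6.H87.SP.Ker

/-!
Symmetric powers and the `μ`-invariant (MP_519cc8_nt): the two bounds.
-/

set_option autoImplicit false
set_option linter.unusedSectionVars false

open Module TensorProduct

namespace Pool.Agent.K6.H87.SP

open MvPolynomial Pool.Agent.K6.H45.MU

variable {F : Type} [Field F] {κ : Type} [Fintype κ] [DecidableEq κ]
variable {𝔊 : Type} [Group 𝔊] [TopologicalSpace 𝔊] [IsTopologicalGroup 𝔊]

theorem sub_smul_one (c : F) {m : ℕ} {P : MvPolynomial κ F} (hP : P.IsHomogeneous m) :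
    sub (c • (1 : Matrix κ κ F)) P = c ^ m • P := by
  have h1 : sub (c • (1 : Matrix κ κ F)) P = aeval (fun k => C c * X k) P := by
    unfold sub
    congr 1
    congr 1
    funext k
    rw [Finset.sum_eq_single k]
    · rw [Matrix.smul_apply, Matrix.one_apply_eq, smul_eq_mul, mul_one]
    · intro j _ hj
      rw [Matrix.smul_apply, Matrix.one_apply_ne hj, smul_zero, C_0, zero_mul]
    · intro h
      exact absurd (Finset.mem_univ _) h
  rw [h1, aeval_def, eval₂_eq]
  conv_rhs => rw [P.as_sum, Finset.smul_sum]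
  refine Finset.sum_congr rfl fun d hd => ?_
  have h2 : ∑ i ∈ d.support, d i = m := (hP.degree_eq_sum_deg_support hd).symm
  simp only [mul_pow]
  rw [Finset.prod_mul_distrib, Finset.prod_pow_eq_pow_sum, h2, MvPolynomial.monomial_eq]
  show C (coeff d P) * (C c ^ m * ∏ i ∈ d.support, X i ^ d i) =
    c ^ m • (C (coeff d P) * ∏ i ∈ d.support, X i ^ d i)
  rw [MvPolynomial.smul_eq_C_mul, map_pow]
  ring

theorem tn_scal (A : 𝔊 →* Matrix κ κ F) (hA : IsOpen {g | A g = 1}) (m j : ℕ) (X : Rp F 𝔊)
    (hX : ∀ (g : 𝔊) (c : F), A g = c • (1 : Matrix κ κ F) → X.ρ g = c ^ j • (1 : X.N →ₗ[F] X.N))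
    (g : 𝔊) (c : F) (hc : A g = c • (1 : Matrix κ κ F)) :
    (tn X (sy A hA m)).ρ g = c ^ (m + j) • (1 : (tn X (sy A hA m)).N →ₗ[F] _) := by
  rw [rhoT_eq]
  have h1 : symL m (A g) = c ^ m • (1 : homogeneousSubmodule κ F m →ₗ[F] _) := by
    refine LinearMap.ext fun P => Subtype.ext ?_
    rw [symL_val, hc, sub_smul_one c P.2]
    rfl
  have h2 : rhoT A m X g = c ^ (m + j) • (1 : TX X κ m →ₗ[F] TX X κ m) := by
    unfold rhoT
    rw [hX g c hc, h1, TensorProduct.map_smul_left, TensorProduct.map_smul_right,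
      TensorProduct.map_one, smul_smul, pow_add, mul_comm]
  exact h2

theorem two_bounds (hFIN : S_FIN) (hDEC : S_DEC) [Nonempty κ] {Ω : Type} [CommRing Ω] [IsDomain Ω]
    (C : Coh F 𝔊 Ω) (A : 𝔊 →* Matrix κ κ F) (hA : IsOpen {g | A g = 1})
    (hD : (scal A).index ≠ 0) (m j : ℕ) (X : Rp F 𝔊)
    (hX : ∀ (g : 𝔊) (c : F), A g = c • (1 : Matrix κ κ F) → X.ρ g = c ^ j • (1 : X.N →ₗ[F] X.N))
    (hm : (scal A).index ≤ m + 1) (N : ℕ)
    (hN : (N - 1) * (scal A).index <
      (Fintype.card κ + (m + 1 - (scal A).index) - 1).choose (m + 1 - (scal A).index)) :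
    N * finrank F X.N * C.rk (CC A hA hD (m + j)) ≤ C.rk (tn X (sy A hA m)) ∧
    C.rk (tn X (sy A hA m)) +
        N * finrank F X.N * (scal A).index * C.rk (CC A hA hD (m + j)) ≤
      N * finrank F X.N * C.rk (CC A hA hD (m + j)) +
        finrank F (tn X (sy A hA m)).N * C.rk (CC A hA hD (m + j)) := by
  classical
  have := Subgroup.fintypeOfIndexNeZero hD
  have hcard : Fintype.card (𝔊 ⧸ scal A) = (scal A).index := by
    rw [← Nat.card_eq_fintype_card]
    rfl
  obtain ⟨K, iK, aK, hfin, y, Q, hQ, hv⟩ := hFIN F κ (𝔊 ⧸ scal A)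
    (fun q => (A q.out).transpose) m N (fun q => by
      have h1 : IsUnit (A q.out) := by
        refine ⟨⟨A q.out, A (q.out)⁻¹, ?_, ?_⟩, rfl⟩
        · rw [← map_mul, mul_inv_cancel, map_one]
        · rw [← map_mul, inv_mul_cancel, map_one]
      exact (Matrix.isUnit_transpose _).2 h1)
    (fun q q' hqq c hc => by
      apply hqq
      rw [← QuotientGroup.out_eq' q, ← QuotientGroup.out_eq' q']
      refine ((mk_eq_iff A _ _).2 ⟨c, ?_⟩).symm
      have h1 := congrArg Matrix.transpose hc
      rwa [Matrix.transpose_smul, Matrix.transpose_transpose, Matrix.transpose_transpose] at h1)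
    (by rw [hcard]; exact hm) (by rw [hcard]; exact hN)
  have := hfin
  let ω := Module.finBasis F K
  let v := Module.finBasis F X.N
  have hd : 0 < finrank F K := Module.finrank_pos
  have hs : Function.Surjective (PsF A m j X hX ω y v) :=
    PsF_surj hDEC A hD m j X hX ω y v Q hQ (fun i q l q' => by
      constructor
      · intro h
        rw [hv i q l q', if_pos h]
      · intro h
        rw [hv i q l q', if_neg h])
  have h1 := rk_le_of_surj C (Ps A hA hD m j X hX ω y v) hs
  have h2 := surj_le C A hA hD (m + j) (Ps A hA hD m j X hX ω y v) hs (by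
    intro g c hc
    have h3 := tn_scal A hA m j X hX g c hc
    refine LinearMap.ext fun u => ?_
    funext b
    show (tn X (sy A hA m)).ρ g (u b) = _
    rw [h3]
    rfl)
  have e1 : finrank F (pw (CC A hA hD (m + j)) (Fin (finrank F K) × Fin N × Fin (finrank F X.N))).N =
      finrank F K * (N * finrank F X.N) * (scal A).index := by
    show finrank F (Fin (finrank F K) × Fin N × Fin (finrank F X.N) → hom A (m + j)) = _
    have := hom_finite A hD (m + j)
    rw [Module.finrank_pi_fintype]
    simp only [finrank_hom A hD (m + j), Finset.sum_const, Finset.card_univ, Fintype.card_prod,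
      Fintype.card_fin, smul_eq_mul]
  have e2 : finrank F (pw (tn X (sy A hA m)) (Fin (finrank F K))).N =
      finrank F K * finrank F (tn X (sy A hA m)).N := by
    show finrank F (Fin (finrank F K) → (tn X (sy A hA m)).N) = _
    rw [Module.finrank_pi_fintype]
    simp only [Finset.sum_const, Finset.card_univ, Fintype.card_fin, smul_eq_mul]
  rw [e1, e2, rk_pw, rk_pw] at h2
  rw [rk_pw, rk_pw] at h1
  simp only [Fintype.card_prod, Fintype.card_fin] at h1 h2
  constructor
  · refine Nat.le_of_mul_le_mul_left ?_ hd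
    calc finrank F K * (N * finrank F X.N * C.rk (CC A hA hD (m + j)))
        = finrank F K * (N * finrank F X.N) * C.rk (CC A hA hD (m + j)) := by ring
      _ ≤ _ := h1
  · refine Nat.le_of_mul_le_mul_left ?_ hd
    calc finrank F K * (C.rk (tn X (sy A hA m)) +
          N * finrank F X.N * (scal A).index * C.rk (CC A hA hD (m + j)))
        = finrank F K * C.rk (tn X (sy A hA m)) +
          finrank F K * (N * finrank F X.N) * (scal A).index * C.rk (CC A hA hD (m + j)) := by ring
      _ ≤ _ := h2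
      _ = _ := by ring

end Pool.Agent.K6.H87.SP
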