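import Pool.Agent.K6.H87.SP.StmT

set_option autoImplicit false

open Module TensorProduct

namespace Pool.Agent.K6.H87.SP

open Pool.Agent.K6.H45.MU

namespace PWT

variable {F : Type} [Field F] {𝔊 : Type} [Group 𝔊] [TopologicalSpace 𝔊] [IsTopologicalGroup 𝔊]

open Classical in
/-- `W ⊗ Y ^ K = (W ⊗ Y) ^ K` -/
noncomputable def eqv (W Y : Rp F 𝔊) (K : Type) [Fintype K] :
    (tn W (pw Y K)).N ≃ₗ[F] (pw (tn W Y) K).N :=
  (TensorProduct.piRight F F W.N (fun _ : K => Y.N) :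
    W.N ⊗[F] (K → Y.N) ≃ₗ[F] (K → W.N ⊗[F] Y.N))

theorem eqv_tmul (W Y : Rp F 𝔊) (K : Type) [Fintype K] (w : W.N) (y : K → Y.N) (k : K) :
    (eqv W Y K (w ⊗ₜ[F] y : W.N ⊗[F] (K → Y.N)) : K → W.N ⊗[F] Y.N) k = w ⊗ₜ[F] y k := rfl

/-- the same as a homomorphism of representations -/
noncomputable def hom (W Y : Rp F 𝔊) (K : Type) [Fintype K] : Hom (tn W (pw Y K)) (pw (tn W Y) K) where
  f := (eqv W Y K).toLinearMap
  eq g x := by
    have h : ((eqv W Y K).toLinearMap ∘ₗ ((tn W (pw Y K)).ρ g) :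
        W.N ⊗[F] (K → Y.N) →ₗ[F] (pw (tn W Y) K).N) =
        ((pw (tn W Y) K).ρ g) ∘ₗ (eqv W Y K).toLinearMap :=
      TensorProduct.ext' fun w y => rfl
    exact LinearMap.congr_fun h x

end PWT

theorem t_PWT : S_PWT := by
  intro F _ 𝔊 _ _ _ Ω _ _ C W Y K _
  rw [rk_eq_of_bij C (PWT.hom W Y K) (PWT.eqv W Y K).bijective, rk_pw]

end Pool.Agent.K6.H87.SP
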