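import Pool.Agent.K6.H87.SP.Rep

/-!
Symmetric powers and the `μ`-invariant (MP_519cc8_nt): the evaluation at the orbits of points.
-/

set_option autoImplicit false
set_option linter.unusedSectionVars false

open Module TensorProduct

namespace Pool.Agent.K6.H87.SP

open MvPolynomial Pool.Agent.K6.H45.MU

variable {F : Type} [Field F] {κ : Type} [Fintype κ] [DecidableEq κ]
variable {𝔊 : Type} [Group 𝔊] [TopologicalSpace 𝔊] [IsTopologicalGroup 𝔊]
variable {K : Type} [Field K] [Algebra F K]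

/-- the evaluation of a form at a point of `K ^ κ` -/
noncomputable def evF (m : ℕ) (y : κ → K) : homogeneousSubmodule κ F m →ₗ[F] K :=
  (aeval y : MvPolynomial κ F →ₐ[F] K).toLinearMap ∘ₗ (homogeneousSubmodule κ F m).subtype

/-- `x ⊗ P ↦ l(x) P(y)` -/
noncomputable def ev2 {V : Type} [AddCommGroup V] [Module F V] (m : ℕ) (l : V →ₗ[F] F)
    (y : κ → K) : V ⊗[F] homogeneousSubmodule κ F m →ₗ[F] K :=
  TensorProduct.lift ((LinearMap.toSpanSingleton F _ (evF m y)) ∘ₗ l)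

theorem ev2_tmul {V : Type} [AddCommGroup V] [Module F V] (m : ℕ) (l : V →ₗ[F] F)
    (y : κ → K) (x : V) (P : homogeneousSubmodule κ F m) :
    ev2 m l y (x ⊗ₜ[F] P) = algebraMap F K (l x) * aeval y P.1 := by
  unfold ev2
  rw [TensorProduct.lift.tmul]
  show l x • aeval y P.1 = _
  rw [Algebra.smul_def]

/-- the space of `X ⊗ Sym^m T` -/
abbrev TX (X : Rp F 𝔊) (κ : Type) (m : ℕ) : Type := X.N ⊗[F] homogeneousSubmodule κ F m

/-- the action on it -/
noncomputable def rhoT (A : 𝔊 →* Matrix κ κ F) (m : ℕ) (X : Rp F 𝔊) (g : 𝔊) :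
    TX X κ m →ₗ[F] TX X κ m := TensorProduct.map (X.ρ g) (symL m (A g))

theorem rhoT_eq (A : 𝔊 →* Matrix κ κ F) (hA : IsOpen {g | A g = 1}) (m : ℕ) (X : Rp F 𝔊) (g : 𝔊) :
    (tn X (sy A hA m)).ρ g = rhoT A m X g := rfl

theorem rhoT_mul (A : 𝔊 →* Matrix κ κ F) (hA : IsOpen {g | A g = 1}) (m : ℕ) (X : Rp F 𝔊)
    (g h : 𝔊) (Z : TX X κ m) : rhoT A m X (g * h) Z = rhoT A m X g (rhoT A m X h Z) := by
  rw [← rhoT_eq A hA, ← rhoT_eq A hA, ← rhoT_eq A hA, map_mul]
  rfl

/-- the values of a tensor along the orbit -/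
theorem ev2_hom (A : 𝔊 →* Matrix κ κ F) (m j : ℕ) (X : Rp F 𝔊)
    (hX : ∀ (g : 𝔊) (c : F), A g = c • (1 : Matrix κ κ F) → X.ρ g = c ^ j • (1 : X.N →ₗ[F] X.N))
    (l : X.N →ₗ[F] F) (y : κ → K) (Z : TX X κ m) (g g' : 𝔊) (c : F) (hc : A g' = c • A g) :
    ev2 m l y (rhoT A m X g' Z) = algebraMap F K (c ^ (m + j)) * ev2 m l y (rhoT A m X g Z) := by
  induction Z using TensorProduct.induction_on with
  | zero => simp only [map_zero, mul_zero]
  | add Z W hZ hW => rw [map_add, map_add, map_add, map_add, hZ, hW, mul_add]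
  | tmul x P =>
    show ev2 m l y (X.ρ g' x ⊗ₜ[F] symL m (A g') P) =
      algebraMap F K (c ^ (m + j)) * ev2 m l y (X.ρ g x ⊗ₜ[F] symL m (A g) P)
    rw [ev2_tmul, ev2_tmul, symL_val, symL_val, aeval_sub, aeval_sub]
    have h1 : X.ρ g' x = c ^ j • X.ρ g x := by
      have h2 : A (g' * g⁻¹) = c • (1 : Matrix κ κ F) := by
        rw [map_mul, hc, smul_mul_assoc, ← map_mul, mul_inv_cancel, map_one]
      have h3 : g' = (g' * g⁻¹) * g := by group
      have h4 : X.ρ g' = X.ρ (g' * g⁻¹) * X.ρ g := by rw [← map_mul, ← h3]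
      rw [h4, hX _ c h2]
      rfl
    have h2 : act (A g').transpose y = fun k => algebraMap F K c * act (A g).transpose y k := by
      rw [hc]
      funext k
      show ∑ i, algebraMap F K (c * (A g).transpose k i) * y i =
        algebraMap F K c * ∑ i, algebraMap F K ((A g).transpose k i) * y i
      rw [Finset.mul_sum]
      refine Finset.sum_congr rfl fun i _ => ?_
      rw [map_mul]
      ring
    rw [h1, h2, aeval_smul_hom P.2, map_smul, smul_eq_mul, map_mul, map_pow, map_pow, pow_add]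
    ring

variable {d N r : ℕ}

/-- the value, in `K`, of a family of tensors at the point `y l` -/
noncomputable def val (A : 𝔊 →* Matrix κ κ F) (m : ℕ) (X : Rp F 𝔊) (ω : Basis (Fin d) F K)
    (y : Fin N → κ → K) (v : Basis (Fin r) F X.N) (l : Fin N) (a : Fin r) (g : 𝔊) :
    (Fin d → TX X κ m) →ₗ[F] K :=
  ∑ b, (LinearMap.mulLeft F (ω b)) ∘ₗ (ev2 m (v.coord a) (y l)) ∘ₗ (rhoT A m X g) ∘ₗ
    LinearMap.proj b

theorem val_apply (A : 𝔊 →* Matrix κ κ F) (m : ℕ) (X : Rp F 𝔊) (ω : Basis (Fin d) F K)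
    (y : Fin N → κ → K) (v : Basis (Fin r) F X.N) (l : Fin N) (a : Fin r) (g : 𝔊)
    (u : Fin d → TX X κ m) :
    val A m X ω y v l a g u = ∑ b, ω b * ev2 m (v.coord a) (y l) (rhoT A m X g (u b)) := by
  unfold val
  rw [LinearMap.sum_apply]
  rfl

/-- the evaluation at the orbits -/
noncomputable def PsF (A : 𝔊 →* Matrix κ κ F) (m j : ℕ) (X : Rp F 𝔊)
    (hX : ∀ (g : 𝔊) (c : F), A g = c • (1 : Matrix κ κ F) → X.ρ g = c ^ j • (1 : X.N →ₗ[F] X.N))
    (ω : Basis (Fin d) F K) (y : Fin N → κ → K) (v : Basis (Fin r) F X.N) :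
    (Fin d → TX X κ m) →ₗ[F] (Fin d × Fin N × Fin r → hom A (m + j)) where
  toFun := fun u p => ⟨fun g => ω.coord p.1 (val A m X ω y v p.2.1 p.2.2 g u), by
    intro g g' c hc
    show ω.coord p.1 (val A m X ω y v p.2.1 p.2.2 g' u) =
      c ^ (m + j) * ω.coord p.1 (val A m X ω y v p.2.1 p.2.2 g u)
    have h1 : val A m X ω y v p.2.1 p.2.2 g' u =
        c ^ (m + j) • val A m X ω y v p.2.1 p.2.2 g u := by
      rw [val_apply, val_apply, Algebra.smul_def, Finset.mul_sum]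
      refine Finset.sum_congr rfl fun b _ => ?_
      rw [ev2_hom A m j X hX _ _ _ g g' c hc]
      ring
    rw [h1, map_smul, smul_eq_mul]⟩
  map_add' := by
    intro u w
    funext p
    apply Subtype.ext
    funext g
    show ω.coord p.1 (val A m X ω y v p.2.1 p.2.2 g (u + w)) =
      ω.coord p.1 (val A m X ω y v p.2.1 p.2.2 g u) + ω.coord p.1 (val A m X ω y v p.2.1 p.2.2 g w)
    rw [map_add, map_add]
  map_smul' := by
    intro c u
    funext p
    apply Subtype.ext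
    funext g
    show ω.coord p.1 (val A m X ω y v p.2.1 p.2.2 g (c • u)) =
      c * ω.coord p.1 (val A m X ω y v p.2.1 p.2.2 g u)
    rw [map_smul, map_smul, smul_eq_mul]

theorem PsF_apply (A : 𝔊 →* Matrix κ κ F) (m j : ℕ) (X : Rp F 𝔊)
    (hX : ∀ (g : 𝔊) (c : F), A g = c • (1 : Matrix κ κ F) → X.ρ g = c ^ j • (1 : X.N →ₗ[F] X.N))
    (ω : Basis (Fin d) F K) (y : Fin N → κ → K) (v : Basis (Fin r) F X.N)
    (u : Fin d → TX X κ m) (p : Fin d × Fin N × Fin r) (g : 𝔊) :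
    (PsF A m j X hX ω y v u p).1 g = ω.coord p.1 (val A m X ω y v p.2.1 p.2.2 g u) := rfl

/-- the evaluation at the orbits as a homomorphism -/
noncomputable def Ps (A : 𝔊 →* Matrix κ κ F) (hA : IsOpen {g | A g = 1})
    (hD : (scal A).index ≠ 0) (m j : ℕ) (X : Rp F 𝔊)
    (hX : ∀ (g : 𝔊) (c : F), A g = c • (1 : Matrix κ κ F) → X.ρ g = c ^ j • (1 : X.N →ₗ[F] X.N))
    (ω : Basis (Fin d) F K) (y : Fin N → κ → K) (v : Basis (Fin r) F X.N) :
    Hom (pw (tn X (sy A hA m)) (Fin d)) (pw (CC A hA hD (m + j)) (Fin d × Fin N × Fin r)) where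
  f := PsF A m j X hX ω y v
  eq := by
    intro h u
    funext p
    apply Subtype.ext
    funext g
    show ω.coord p.1 (val A m X ω y v p.2.1 p.2.2 g (fun b => rhoT A m X h (u b))) =
      ω.coord p.1 (val A m X ω y v p.2.1 p.2.2 (g * h) u)
    refine congrArg (ω.coord p.1) ?_
    rw [val_apply, val_apply]
    refine Finset.sum_congr rfl fun b _ => ?_
    rw [rhoT_mul A hA]

theorem PsF_surj (hDEC : S_DEC) [Nonempty κ] (A : 𝔊 →* Matrix κ κ F)
    (hD : (scal A).index ≠ 0) (m j : ℕ) (X : Rp F 𝔊)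
    (hX : ∀ (g : 𝔊) (c : F), A g = c • (1 : Matrix κ κ F) → X.ρ g = c ^ j • (1 : X.N →ₗ[F] X.N))
    (ω : Basis (Fin d) F K) (y : Fin N → κ → K) (v : Basis (Fin r) F X.N)
    (Q : Fin N → 𝔊 ⧸ scal A → MvPolynomial κ K) (hQ : ∀ i q, (Q i q).IsHomogeneous m)
    (hv : ∀ (i : Fin N) (q : 𝔊 ⧸ scal A) (l : Fin N) (q' : 𝔊 ⧸ scal A),
      (l = i ∧ q' = q → eval (act (A q'.out).transpose (y l)) (Q i q) = 1) ∧
      (¬ (l = i ∧ q' = q) → eval (act (A q'.out).transpose (y l)) (Q i q) = 0)) :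
    Function.Surjective (PsF A m j X hX ω y v) := by
  classical
  have := Subgroup.fintypeOfIndexNeZero hD
  intro Φ
  -- the prescribed values
  let w : Fin N → Fin r → 𝔊 ⧸ scal A → K := fun l a q => ∑ b, (Φ (b, l, a)).1 q.out • ω b
  have hR : ∀ (l : Fin N) (a : Fin r) (q : 𝔊 ⧸ scal A), ∃ p : Fin d → MvPolynomial κ F,
      (∀ b, (p b).IsHomogeneous m) ∧
      ∀ z : κ → K, eval z (C (w l a q) * Q l q) = ∑ b, ω b * aeval z (p b) := fun l a q =>
    hDEC F K κ d ω m _ ((hQ l q).C_mul _)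
  choose p hp hpe using hR
  let u : Fin d → TX X κ m := fun b => ∑ l, ∑ a, ∑ q : 𝔊 ⧸ scal A,
    (X.ρ (q.out)⁻¹ (v a)) ⊗ₜ[F] (⟨p l a q b, hp l a q b⟩ : homogeneousSubmodule κ F m)
  refine ⟨u, ?_⟩
  have key : ∀ (l' : Fin N) (a' : Fin r) (q' : 𝔊 ⧸ scal A),
      val A m X ω y v l' a' q'.out u = w l' a' q' := by
    intro l' a' q'
    rw [val_apply]
    have h1 : ∀ b, ev2 m (v.coord a') (y l') (rhoT A m X q'.out (u b)) =
        ∑ l, ∑ a, ∑ q : 𝔊 ⧸ scal A, algebraMap F K (v.coord a' (X.ρ q'.out (X.ρ (q.out)⁻¹ (v a)))) *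
          aeval (act (A q'.out).transpose (y l')) (p l a q b) := by
      intro b
      show ev2 m (v.coord a') (y l') (rhoT A m X q'.out (∑ l, ∑ a, ∑ q : 𝔊 ⧸ scal A,
        (X.ρ (q.out)⁻¹ (v a)) ⊗ₜ[F] (⟨p l a q b, hp l a q b⟩ : homogeneousSubmodule κ F m))) = _
      rw [map_sum, map_sum]
      refine Finset.sum_congr rfl fun l _ => ?_
      rw [map_sum, map_sum]
      refine Finset.sum_congr rfl fun a _ => ?_
      rw [map_sum, map_sum]
      refine Finset.sum_congr rfl fun q _ => ?_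
      show ev2 m (v.coord a') (y l') (X.ρ q'.out (X.ρ (q.out)⁻¹ (v a)) ⊗ₜ[F]
        symL m (A q'.out) ⟨p l a q b, hp l a q b⟩) = _
      rw [ev2_tmul, symL_val, aeval_sub]
    have h2 : ∑ b, ω b * ev2 m (v.coord a') (y l') (rhoT A m X q'.out (u b)) =
        ∑ l, ∑ a, ∑ q : 𝔊 ⧸ scal A, algebraMap F K (v.coord a' (X.ρ q'.out (X.ρ (q.out)⁻¹ (v a)))) *
          eval (act (A q'.out).transpose (y l')) (C (w l a q) * Q l q) := by
      simp only [h1, hpe, Finset.mul_sum]
      rw [Finset.sum_comm]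
      refine Finset.sum_congr rfl fun l _ => ?_
      rw [Finset.sum_comm]
      refine Finset.sum_congr rfl fun a _ => ?_
      rw [Finset.sum_comm]
      refine Finset.sum_congr rfl fun q _ => ?_
      refine Finset.sum_congr rfl fun b _ => ?_
      ring
    rw [h2, Finset.sum_eq_single l']
    · have h3 : ∀ a, ∑ q : 𝔊 ⧸ scal A,
          algebraMap F K (v.coord a' (X.ρ q'.out (X.ρ (q.out)⁻¹ (v a)))) *
          eval (act (A q'.out).transpose (y l')) (C (w l' a q) * Q l' q) =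
          algebraMap F K (v.coord a' (v a)) * w l' a q' := by
        intro a
        rw [Finset.sum_eq_single q']
        · rw [map_mul, eval_C, (hv l' q' l' q').1 ⟨rfl, rfl⟩, mul_one]
          have h4 : X.ρ q'.out (X.ρ (q'.out)⁻¹ (v a)) = v a := by
            rw [← Module.End.mul_apply, ← map_mul, mul_inv_cancel, map_one]
            rfl
          rw [h4]
        · intro q _ hq
          rw [map_mul, (hv l' q l' q').2 (fun h => hq h.2.symm), mul_zero, mul_zero]
        · intro h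
          exact absurd (Finset.mem_univ _) h
      simp only [h3]
      rw [Finset.sum_eq_single a']
      · rw [Basis.coord_apply, Basis.repr_self, Finsupp.single_eq_same, map_one, one_mul]
      · intro a _ ha
        rw [Basis.coord_apply, Basis.repr_self, Finsupp.single_eq_of_ne (Ne.symm ha), map_zero,
          zero_mul]
      · intro h
        exact absurd (Finset.mem_univ _) h
    · intro l _ hl
      refine Finset.sum_eq_zero fun a _ => Finset.sum_eq_zero fun q _ => ?_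
      rw [map_mul, (hv l q l' q').2 (fun h => hl h.1.symm), mul_zero, mul_zero]
    · intro h
      exact absurd (Finset.mem_univ _) h
  funext t
  obtain ⟨b', l', a'⟩ := t
  apply Subtype.ext
  funext g
  have h1 : (QuotientGroup.mk (QuotientGroup.mk g : 𝔊 ⧸ scal A).out : 𝔊 ⧸ scal A) =
      QuotientGroup.mk g := QuotientGroup.out_eq' _
  obtain ⟨c, hc⟩ := (mk_eq_iff A _ _).1 h1
  rw [(PsF A m j X hX ω y v u (b', l', a')).2 _ _ c hc, (Φ (b', l', a')).2 _ _ c hc]
  refine congrArg (fun z : F => c ^ (m + j) * z) ?_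
  rw [PsF_apply]
  show ω.coord b' (val A m X ω y v l' a' (QuotientGroup.mk g : 𝔊 ⧸ scal A).out u) = _
  rw [key]
  show ω.coord b' (∑ b, (Φ (b, l', a')).1 (QuotientGroup.mk g : 𝔊 ⧸ scal A).out • ω b) = _
  rw [map_sum, Finset.sum_eq_single b']
  · rw [map_smul, Basis.coord_apply, Basis.repr_self, Finsupp.single_eq_same, smul_eq_mul, mul_one]
  · intro b _ hb
    rw [map_smul, Basis.coord_apply, Basis.repr_self, Finsupp.single_eq_of_ne (Ne.symm hb),
      smul_zero]
  · intro h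
    exact absurd (Finset.mem_univ _) h

end Pool.Agent.K6.H87.SP
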