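import Pool.Agent.K6.H45.MU.Over
import Pool.Agent.K6.H87.SP.Stm

/-!
Symmetric powers and the `μ`-invariant (MP_519cc8_nt): the representations.
-/

set_option autoImplicit false
set_option linter.unusedSectionVars false

open Module TensorProduct

namespace Pool.Agent.K6.H87.SP

open MvPolynomial Pool.Agent.K6.H45.MU

variable {F : Type} [Field F] {κ : Type} [Fintype κ] [DecidableEq κ]

/-- the linear substitution `X k ↦ ∑ j, M j k X j` -/
noncomputable def sub (M : Matrix κ κ F) : MvPolynomial κ F →ₐ[F] MvPolynomial κ F :=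
  aeval fun k => ∑ j, C (M j k) * X j

theorem sub_X (M : Matrix κ κ F) (k : κ) : sub M (X k) = ∑ j, C (M j k) * X j := by
  unfold sub
  rw [aeval_X]

theorem sub_C (M : Matrix κ κ F) (c : F) : sub M (C c) = C c := by
  unfold sub
  rw [aeval_C]
  rfl

theorem sub_one : sub (1 : Matrix κ κ F) = AlgHom.id F _ := by
  apply MvPolynomial.algHom_ext
  intro k
  rw [sub_X, AlgHom.id_apply, Finset.sum_eq_single k]
  · rw [Matrix.one_apply_eq, C_1, one_mul]
  · intro j _ hj
    rw [Matrix.one_apply_ne hj, C_0, zero_mul]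
  · intro h
    exact absurd (Finset.mem_univ _) h

theorem sub_mul (M N : Matrix κ κ F) : sub (M * N) = (sub M).comp (sub N) := by
  apply MvPolynomial.algHom_ext
  intro k
  rw [AlgHom.comp_apply, sub_X, sub_X, map_sum]
  have h1 : ∀ j, sub M (C (N j k) * X j) = ∑ i, C (N j k * M i j) * X i := by
    intro j
    rw [map_mul, sub_C, sub_X, Finset.mul_sum]
    refine Finset.sum_congr rfl fun i _ => ?_
    rw [C_mul]
    ring
  simp only [h1]
  rw [Finset.sum_comm]
  refine Finset.sum_congr rfl fun i _ => ?_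
  rw [← Finset.sum_mul, Matrix.mul_apply, map_sum]
  congr 1
  refine Finset.sum_congr rfl fun j _ => ?_
  rw [mul_comm]

theorem sub_hom (M : Matrix κ κ F) {m : ℕ} {P : MvPolynomial κ F} (hP : P.IsHomogeneous m) :
    (sub M P).IsHomogeneous m := by
  have h1 := hP.aeval (fun k => ∑ j, C (M j k) * X j) (n := 1) (fun k =>
    IsHomogeneous.sum _ _ _ fun j _ => isHomogeneous_C_mul_X _ _)
  rwa [one_mul] at h1

/-- evaluation of a form at a point of an extension field -/
theorem aeval_sub {K : Type} [Field K] [Algebra F K] (M : Matrix κ κ F) (y : κ → K)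
    (P : MvPolynomial κ F) : aeval y (sub M P) = aeval (act M.transpose y) P := by
  have h1 : ((aeval y : MvPolynomial κ F →ₐ[F] K).comp (sub M)) =
      (aeval (act M.transpose y) : MvPolynomial κ F →ₐ[F] K) := by
    apply MvPolynomial.algHom_ext
    intro k
    rw [AlgHom.comp_apply, sub_X, aeval_X, map_sum]
    unfold act
    show _ = ∑ j, algebraMap F K (M.transpose k j) * y j
    refine Finset.sum_congr rfl fun j _ => ?_
    rw [map_mul, aeval_C, aeval_X]
    rfl
  rw [← h1]
  rfl

theorem aeval_smul_hom {K : Type} [Field K] [Algebra F K] {m : ℕ} {P : MvPolynomial κ F}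
    (hP : P.IsHomogeneous m) (c : K) (y : κ → K) :
    aeval (fun k => c * y k) P = c ^ m * aeval y P := by
  rw [aeval_def, aeval_def, eval₂_eq, eval₂_eq, Finset.mul_sum]
  refine Finset.sum_congr rfl fun d hd => ?_
  have h1 : ∑ i ∈ d.support, d i = m := (hP.degree_eq_sum_deg_support hd).symm
  simp only [mul_pow]
  rw [Finset.prod_mul_distrib, Finset.prod_pow_eq_pow_sum, h1]
  ring

/-- the action on the forms of degree `m` -/
noncomputable def symL (m : ℕ) (M : Matrix κ κ F) :
    homogeneousSubmodule κ F m →ₗ[F] homogeneousSubmodule κ F m :=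
  (sub M).toLinearMap.restrict fun _ hP => sub_hom M hP

theorem symL_val (m : ℕ) (M : Matrix κ κ F) (P : homogeneousSubmodule κ F m) :
    (symL m M P).1 = sub M P.1 := rfl

variable {𝔊 : Type} [Group 𝔊] [TopologicalSpace 𝔊] [IsTopologicalGroup 𝔊]

/-- `Sym^m T` for `T = F^κ` with the action by the matrices `A g`: the forms of degree `m` in the
basis `X k`, `k ∈ κ`, of `T` -/
noncomputable def sy (A : 𝔊 →* Matrix κ κ F) (hA : IsOpen {g | A g = 1}) (m : ℕ) : Rp F 𝔊 where
  N := homogeneousSubmodule κ F m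
  fin := Module.Finite.iff_fg.2 (homogeneousSubmodule_fg κ F m)
  ρ :=
    { toFun := fun g => symL m (A g)
      map_one' := by
        refine LinearMap.ext fun P => Subtype.ext ?_
        rw [symL_val, map_one, sub_one]
        rfl
      map_mul' := fun g h => by
        refine LinearMap.ext fun P => Subtype.ext ?_
        rw [symL_val, map_mul, sub_mul]
        rfl }
  cont := by
    refine open_of_ker hA _ fun g hg => ?_
    show symL m (A g) = 1
    refine LinearMap.ext fun P => Subtype.ext ?_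
    rw [symL_val, hg, sub_one]
    rfl

/-- the tensor product of two representations -/
noncomputable def tn (X Y : Rp F 𝔊) : Rp F 𝔊 where
  N := X.N ⊗[F] Y.N
  ρ := X.ρ.tprod Y.ρ
  cont := by
    have h1 : IsOpen ((MonoidHom.ker X.ρ ⊓ MonoidHom.ker Y.ρ : Subgroup 𝔊) : Set 𝔊) :=
      X.cont.inter Y.cont
    have h2 : MonoidHom.ker X.ρ ⊓ MonoidHom.ker Y.ρ ≤ MonoidHom.ker (X.ρ.tprod Y.ρ) := by
      intro g hg
      have h3 : X.ρ g = 1 := hg.1
      have h4 : Y.ρ g = 1 := hg.2
      show TensorProduct.map (X.ρ g) (Y.ρ g) = 1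
      rw [h3, h4]
      exact TensorProduct.map_one
    exact Subgroup.isOpen_mono h2 h1

theorem sy_rho (A : 𝔊 →* Matrix κ κ F) (hA : IsOpen {g | A g = 1}) (m : ℕ) (g : 𝔊)
    (P : homogeneousSubmodule κ F m) : (((sy A hA m).ρ g P : homogeneousSubmodule κ F m)).1 =
      sub (A g) P.1 := rfl

theorem tn_rho (X Y : Rp F 𝔊) (g : 𝔊) (x : X.N) (y : Y.N) :
    (tn X Y).ρ g (x ⊗ₜ[F] y : X.N ⊗[F] Y.N) = (X.ρ g x ⊗ₜ[F] Y.ρ g y : X.N ⊗[F] Y.N) := rfl

end Pool.Agent.K6.H87.SP
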