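import Pool.Agent.K6.H87.SP.Stm

/-!
# Piece `SEP`: forms of degree `m` which separate the points `B q (y i)`

The piece needs the extra hypothesis that no `y i` is zero; without it the statement fails for
`t = 0`, `N = 1`, one matrix, `y = 0` and `m > 0` (and only there: see `t_SEP_pos`, `t_SEP_two`).
-/

set_option autoImplicit false

namespace Pool.Agent.K6.H87.SP

open MvPolynomial

namespace SEP

variable {F K κ : Type} [Field F] [Field K] [Algebra F K] [Fintype κ] [DecidableEq κ]

omit [DecidableEq κ] in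
lemma act_act (A B : Matrix κ κ F) (z : κ → K) : act A (act B z) = act (A * B) z := by
  unfold act
  rw [Matrix.mulVec_mulVec, Matrix.map_mul]

omit [DecidableEq κ] in
lemma act_smul (c : F) (B : Matrix κ κ F) (z : κ → K) :
    act (c • B) z = fun k => algebraMap F K c * act B z k := by
  funext k
  simp only [act, Matrix.mulVec, dotProduct, Matrix.map_apply, Matrix.smul_apply, smul_eq_mul,
    map_mul, Finset.mul_sum, mul_assoc]

lemma act_one (z : κ → K) : act (1 : Matrix κ κ F) z = z := by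
  unfold act
  rw [Matrix.map_one _ (map_zero _) (map_one _), Matrix.one_mulVec]

lemma act_ne {B : Matrix κ κ F} (hB : IsUnit B) {z : κ → K} (hz : ∃ k, z k ≠ 0) :
    ∃ k, act B z k ≠ 0 := by
  by_contra h
  push Not at h
  obtain ⟨k, hk⟩ := hz
  obtain ⟨u, rfl⟩ := hB
  have h1 : act (((u⁻¹ : (Matrix κ κ F)ˣ) : Matrix κ κ F) * (u : Matrix κ κ F)) z = z := by
    rw [Units.inv_mul, act_one]
  rw [← act_act] at h1
  have h2 : act (u : Matrix κ κ F) z = 0 := funext h
  rw [h2] at h1
  apply hk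
  rw [← h1]
  simp [act]

omit [Fintype κ] [DecidableEq κ] in
lemma eval_scale {P : MvPolynomial κ K} {t : ℕ} (hP : P.IsHomogeneous t) (c : K) (z : κ → K) :
    eval (fun k => c * z k) P = c ^ t * eval z P := by
  rw [eval_eq, eval_eq, Finset.mul_sum]
  refine Finset.sum_congr rfl fun d hd => ?_
  have hd' : d.sum (fun _ n => n) = t := by
    have := hP (mem_support_iff.mp hd)
    rw [← this, Finsupp.weight_apply]
    simp
  rw [← hd']
  simp only [mul_pow, Finset.prod_mul_distrib, Finsupp.sum, Finset.prod_pow_eq_pow_sum]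
  ring

/-- the form `P (B x)` -/
noncomputable def sb (B : Matrix κ κ F) (P : MvPolynomial κ K) : MvPolynomial κ K :=
  aeval (fun k => ∑ j, C (algebraMap F K (B k j)) * (X j : MvPolynomial κ K)) P

omit [DecidableEq κ] in
lemma eval_sb (B : Matrix κ κ F) (P : MvPolynomial κ K) (z : κ → K) :
    eval z (sb B P) = eval (act B z) P := by
  unfold sb
  induction P using MvPolynomial.induction_on with
  | C a => simp [algebraMap_eq]
  | add p q hp hq => simp only [map_add, hp, hq]
  | mul_X p k hp =>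
    rw [map_mul, map_mul, map_mul, hp, aeval_X, eval_X]
    congr 1
    simp [act, Matrix.mulVec, dotProduct]

omit [DecidableEq κ] in
lemma hom_sb (B : Matrix κ κ F) {P : MvPolynomial κ K} {t : ℕ} (hP : P.IsHomogeneous t) :
    (sb B P).IsHomogeneous t := by
  have h1 : ∀ k, (∑ j, C (algebraMap F K (B k j)) *
      (X j : MvPolynomial κ K)).IsHomogeneous 1 := fun k =>
    IsHomogeneous.sum _ _ _ fun j _ => by
      simpa using (isHomogeneous_C κ (algebraMap F K (B k j))).mul (isHomogeneous_X K j)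
  have h2 := hP.aeval _ h1
  rw [one_mul] at h2
  exact h2

omit [DecidableEq κ] in
lemma hom_lin (w : κ → K) : (∑ k, C (w k) * (X k : MvPolynomial κ K)).IsHomogeneous 1 :=
  IsHomogeneous.sum _ _ _ fun j _ => by
    simpa using (isHomogeneous_C κ (w j)).mul (isHomogeneous_X K j)

/-- the construction, for points `act (B q) (y i)` which are not zero -/
theorem main {I : Type} [Fintype I] [DecidableEq I] (B : I → Matrix κ κ F) (t N m : ℕ)
    (y : Fin N → κ → K) (P : Fin N → MvPolynomial κ K)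
    (hmul : ∀ q q' : I, ∃ (q'' : I) (c : F), c ≠ 0 ∧ B q * B q' = c • B q'')
    (hinv : ∀ q' : I, ∃ (q : I) (c : F), B q * B q' = c • (1 : Matrix κ κ F))
    (hhom : ∀ i, (P i).IsHomogeneous t) (hzero : ∀ i l, l ≠ i → eval (y l) (P i) = 0)
    (hne : ∀ i q, eval (act (B q) (y i)) (P i) ≠ 0)
    (hsep : ∀ i q q', q ≠ q' → ∃ w : κ → K,
      ∑ k, w k * act (B q) (y i) k ≠ 0 ∧ ∑ k, w k * act (B q') (y i) k = 0)
    (hm : t * Fintype.card I + (Fintype.card I - 1) ≤ m) (i : Fin N) (q : I)
    (hy : ∃ k, act (B q) (y i) k ≠ 0) :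
    ∃ Q : MvPolynomial κ K, Q.IsHomogeneous m ∧
      ∀ (l : Fin N) (q' : I), eval (act (B q') (y l)) Q = if l = i ∧ q' = q then 1 else 0 := by
  classical
  obtain ⟨k₀, hk₀⟩ := hy
  have hw : ∀ q' : I, ∃ w : κ → K, q ≠ q' →
      (∑ k, w k * act (B q) (y i) k ≠ 0 ∧ ∑ k, w k * act (B q') (y i) k = 0) := by
    intro q'
    by_cases h : q = q'
    · exact ⟨0, fun h' => absurd h h'⟩
    · obtain ⟨w, hw⟩ := hsep i q q' h
      exact ⟨w, fun _ => hw⟩
  choose w hw using hw
  set f : MvPolynomial κ K := ∏ r, sb (B r) (P i) with hf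
  set g : MvPolynomial κ K := ∏ q' ∈ Finset.univ.erase q, ∑ k, C (w q' k) * X k with hg
  set e : ℕ := m - (t * Fintype.card I + (Fintype.card I - 1)) with he
  set h : MvPolynomial κ K := X k₀ ^ e with hh
  have hfh : f.IsHomogeneous (t * Fintype.card I) := by
    have := IsHomogeneous.prod Finset.univ (fun r => sb (B r) (P i)) (fun _ => t)
      (fun r _ => hom_sb (B r) (hhom i))
    simpa [mul_comm] using this
  have hgh : g.IsHomogeneous (Fintype.card I - 1) := by
    have := IsHomogeneous.prod (Finset.univ.erase q) (fun q' => ∑ k, C (w q' k) * X k)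
      (fun _ => 1) (fun q' _ => hom_lin (w q'))
    simpa [Finset.card_erase_of_mem] using this
  have hhh : h.IsHomogeneous e := by
    have := (isHomogeneous_X K k₀).pow e
    simpa using this
  have hev : ∀ z : κ → K, eval z (f * g * h) = (∏ r, eval (act (B r) z) (P i)) *
      (∏ q' ∈ Finset.univ.erase q, ∑ k, w q' k * z k) * z k₀ ^ e := by
    intro z
    rw [map_mul, map_mul, hf, hg, hh, map_prod, map_prod, map_pow, eval_X]
    congr 2
    · exact Finset.prod_congr rfl fun r _ => eval_sb (B r) (P i) z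
    · refine Finset.prod_congr rfl fun q' _ => ?_
      simp
  have hval : eval (act (B q) (y i)) (f * g * h) ≠ 0 := by
    rw [hev]
    refine mul_ne_zero (mul_ne_zero ?_ ?_) (pow_ne_zero _ hk₀)
    · refine Finset.prod_ne_zero_iff.mpr fun r _ => ?_
      rw [act_act]
      obtain ⟨q'', c, hc, hq⟩ := hmul r q
      rw [hq, act_smul, eval_scale (hhom i)]
      exact mul_ne_zero (pow_ne_zero _ ((map_ne_zero _).mpr hc)) (hne i q'')
    · refine Finset.prod_ne_zero_iff.mpr fun q' hq' => ?_
      exact (hw q' (Finset.ne_of_mem_erase hq').symm).1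
  refine ⟨C (eval (act (B q) (y i)) (f * g * h))⁻¹ * (f * g * h), ?_, ?_⟩
  · have h1 := (isHomogeneous_C κ (eval (act (B q) (y i)) (f * g * h))⁻¹).mul
      ((hfh.mul hgh).mul hhh)
    have h2 : 0 + (t * Fintype.card I + (Fintype.card I - 1) + e) = m := by omega
    rw [h2] at h1
    exact h1
  · intro l q'
    rw [map_mul, eval_C]
    by_cases hl : l = i
    · subst hl
      by_cases hq : q' = q
      · subst hq
        rw [if_pos ⟨rfl, rfl⟩, inv_mul_cancel₀ hval]
      · rw [if_neg (fun hh => hq hh.2)]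
        have : eval (act (B q') (y l)) (f * g * h) = 0 := by
          rw [hev, Finset.prod_eq_zero (Finset.mem_erase.mpr ⟨hq, Finset.mem_univ q'⟩)
            (hw q' (Ne.symm hq)).2]
          ring
        rw [this, mul_zero]
    · rw [if_neg (fun hh => hl hh.1)]
      have : eval (act (B q') (y l)) (f * g * h) = 0 := by
        obtain ⟨r, c, hr⟩ := hinv q'
        have h0 : eval (act (B r) (act (B q') (y l))) (P i) = 0 := by
          rw [act_act, hr, act_smul, act_one, eval_scale (hhom i), hzero i l hl, mul_zero]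
        rw [hev, Finset.prod_eq_zero (Finset.mem_univ r) h0]
        ring
      rw [this, mul_zero]

end SEP

/-- the corrected statement of the piece: no point `y i` is zero -/
def S_SEP' : Prop := ∀ (F K κ I : Type) [Field F] [Field K] [Algebra F K] [Fintype κ]
  [DecidableEq κ] [Nonempty κ] [Fintype I] [DecidableEq I] (B : I → Matrix κ κ F) (t N m : ℕ)
  (y : Fin N → κ → K) (P : Fin N → MvPolynomial κ K),
  (∀ q, IsUnit (B q)) →
  (∀ q q' : I, ∃ (q'' : I) (c : F), c ≠ 0 ∧ B q * B q' = c • B q'') →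
  (∀ q' : I, ∃ (q : I) (c : F), B q * B q' = c • (1 : Matrix κ κ F)) →
  (∀ i, (P i).IsHomogeneous t) → (∀ i l, l ≠ i → eval (y l) (P i) = 0) →
  (∀ i q, eval (act (B q) (y i)) (P i) ≠ 0) →
  (∀ i q q', q ≠ q' → ∃ w : κ → K,
    ∑ k, w k * act (B q) (y i) k ≠ 0 ∧ ∑ k, w k * act (B q') (y i) k = 0) →
  t * Fintype.card I + (Fintype.card I - 1) ≤ m →
  (∀ i, ∃ k, y i k ≠ 0) →
  ∀ (i : Fin N) (q : I), ∃ Q : MvPolynomial κ K, Q.IsHomogeneous m ∧
    ∀ (l : Fin N) (q' : I), eval (act (B q') (y l)) Q = if l = i ∧ q' = q then 1 else 0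

theorem t_SEP : S_SEP' := by
  intro F K κ I _ _ _ _ _ _ _ _ B t N m y P hB hmul hinv hhom hzero hne hsep hm hy i q
  exact SEP.main B t N m y P hmul hinv hhom hzero hne hsep hm i q (SEP.act_ne (hB q) (hy i))

/-- the original statement, for `t` positive or at least two matrices: then no point is zero -/
theorem t_SEP_of (F K κ I : Type) [Field F] [Field K] [Algebra F K] [Fintype κ]
    [DecidableEq κ] [Fintype I] [DecidableEq I] (B : I → Matrix κ κ F) (t N m : ℕ)
    (y : Fin N → κ → K) (P : Fin N → MvPolynomial κ K)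
    (hmul : ∀ q q' : I, ∃ (q'' : I) (c : F), c ≠ 0 ∧ B q * B q' = c • B q'')
    (hinv : ∀ q' : I, ∃ (q : I) (c : F), B q * B q' = c • (1 : Matrix κ κ F))
    (hhom : ∀ i, (P i).IsHomogeneous t) (hzero : ∀ i l, l ≠ i → eval (y l) (P i) = 0)
    (hne : ∀ i q, eval (act (B q) (y i)) (P i) ≠ 0)
    (hsep : ∀ i q q', q ≠ q' → ∃ w : κ → K,
      ∑ k, w k * act (B q) (y i) k ≠ 0 ∧ ∑ k, w k * act (B q') (y i) k = 0)
    (hm : t * Fintype.card I + (Fintype.card I - 1) ≤ m)
    (ht : 0 < t ∨ 1 < Fintype.card I) (i : Fin N) (q : I) :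
    ∃ Q : MvPolynomial κ K, Q.IsHomogeneous m ∧
      ∀ (l : Fin N) (q' : I), eval (act (B q') (y l)) Q = if l = i ∧ q' = q then 1 else 0 := by
  refine SEP.main B t N m y P hmul hinv hhom hzero hne hsep hm i q ?_
  by_contra h
  push Not at h
  have h0 : act (B q) (y i) = fun k => (0 : K) * (0 : K) := by
    funext k
    rw [h k, mul_zero]
  rcases ht with ht | ht
  · apply hne i q
    rw [h0, SEP.eval_scale (hhom i), zero_pow ht.ne', zero_mul]
  · obtain ⟨q', hq'⟩ := Fintype.exists_ne_of_one_lt_card ht q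
    obtain ⟨w, hw, -⟩ := hsep i q q' hq'.symm
    apply hw
    simp [h]

end Pool.Agent.K6.H87.SP
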