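import Pool.Agent.K6.H87.SP.StmT

/-!
Tensor products and the `μ`-invariant (MP_519cc8_nt): piece SPL.
-/

set_option autoImplicit false
set_option linter.unusedSectionVars false

open Module TensorProduct

namespace Pool.Agent.K6.H87.SP

open Pool.Agent.K6.H45.MU

namespace SPL

variable {F : Type} [Field F] {κ : Type} [Fintype κ] [DecidableEq κ]
variable {𝔊 : Type} [Group 𝔊] [TopologicalSpace 𝔊] [IsTopologicalGroup 𝔊]

/-- the map `1 ⊗ f` -/
noncomputable def lt (W : Rp F 𝔊) {X Y : Rp F 𝔊} (f : Hom X Y) : Hom (tn W X) (tn W Y) where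
  f := LinearMap.lTensor W.N f.f
  eq := by
    intro g z
    have h1 : (LinearMap.lTensor W.N f.f) ∘ₗ (TensorProduct.map (W.ρ g) (X.ρ g)) =
        (TensorProduct.map (W.ρ g) (Y.ρ g)) ∘ₗ LinearMap.lTensor W.N f.f := by
      apply TensorProduct.ext'
      intro w x
      rw [LinearMap.comp_apply, LinearMap.comp_apply, TensorProduct.map_tmul,
        LinearMap.lTensor_tmul, LinearMap.lTensor_tmul, TensorProduct.map_tmul, f.eq]
    exact LinearMap.congr_fun h1 z

/-- the section -/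
noncomputable def sig (A : 𝔊 →* Matrix κ κ F) [Fintype (𝔊 ⧸ scal A)]
    (hA : IsOpen {g | A g = 1}) (hD : (scal A).index ≠ 0) (s : ℕ) (Y : Rp F 𝔊)
    (hY : Pu A s Y) (y : Y.N) : Hom (CC A hA hD s) Y where
  f :=
    { toFun := fun φ => ThetaF A s Y (fun _ : Fin 1 => y) (fun _ => φ)
      map_add' := fun φ ψ => (ThetaF A s Y (fun _ : Fin 1 => y)).map_add (fun _ => φ) (fun _ => ψ)
      map_smul' := fun c φ => (ThetaF A s Y (fun _ : Fin 1 => y)).map_smul c (fun _ => φ) }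
  eq := fun g φ => ThetaF_eq A s Y hY (fun _ : Fin 1 => y) g (fun _ => φ)

theorem sig_apply [Nonempty κ] (A : 𝔊 →* Matrix κ κ F) [Fintype (𝔊 ⧸ scal A)]
    (hA : IsOpen {g | A g = 1}) (hD : (scal A).index ≠ 0) (s : ℕ) (Y : Rp F 𝔊) (hY : Pu A s Y) (y : Y.N)
    (f : Hom Y (CC A hA hD s)) (hf : f.f y = delta A s) (φ : hom A s) :
    f.f ((sig A hA hD s Y hY y).f φ) = φ := by
  have h1 : (sig A hA hD s Y hY y).f φ =
      ∑ b : Fin 1, ∑ q : 𝔊 ⧸ scal A, φ.1 (q.out)⁻¹ • Y.ρ q.out y := rfl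
  rw [h1, Fin.sum_univ_one, map_sum]
  have h2 : ∀ q : 𝔊 ⧸ scal A, f.f (φ.1 (q.out)⁻¹ • Y.ρ q.out y) =
      (φ.1 (q.out)⁻¹ • trans A s q.out (delta A s) : hom A s) := by
    intro q
    rw [map_smul, f.eq, hf]
    rfl
  rw [Finset.sum_congr rfl fun q _ => h2 q]
  apply Subtype.ext
  funext g
  have h3 : (∑ q : 𝔊 ⧸ scal A, (φ.1 (q.out)⁻¹ • trans A s q.out (delta A s) : hom A s)).1 g =
      ∑ q : 𝔊 ⧸ scal A, φ.1 (q.out)⁻¹ * (delta A s).1 (g * q.out) := by
    let ev : hom A s →ₗ[F] F :=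
      { toFun := fun ψ => ψ.1 g
        map_add' := fun _ _ => rfl
        map_smul' := fun _ _ => rfl }
    exact map_sum ev _ _
  refine h3.trans ?_
  rw [Finset.sum_eq_single (QuotientGroup.mk g⁻¹ : 𝔊 ⧸ scal A)]
  · have h4 : (QuotientGroup.mk (QuotientGroup.mk g⁻¹ : 𝔊 ⧸ scal A).out : 𝔊 ⧸ scal A) =
      QuotientGroup.mk g⁻¹ := QuotientGroup.out_eq' _
    obtain ⟨c, hc⟩ := (mk_eq_iff A _ _).1 h4.symm
    -- hc : A out = c • A g⁻¹
    have h5 : A (g * (QuotientGroup.mk g⁻¹ : 𝔊 ⧸ scal A).out) = c • (1 : Matrix κ κ F) := by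
      rw [map_mul, hc, mul_smul_comm, ← map_mul, mul_inv_cancel, map_one]
    rw [delta_pos A s h5]
    -- g = (g * out) * out⁻¹
    have h6 : A g = c • A ((QuotientGroup.mk g⁻¹ : 𝔊 ⧸ scal A).out)⁻¹ := by
      have h7 : g = g * (QuotientGroup.mk g⁻¹ : 𝔊 ⧸ scal A).out *
          ((QuotientGroup.mk g⁻¹ : 𝔊 ⧸ scal A).out)⁻¹ := by group
      conv_lhs => rw [h7]
      rw [map_mul, h5, smul_mul_assoc, one_mul]
    rw [φ.2 _ _ c h6, mul_comm]
  · intro q _ hq
    rw [delta_neg A s, mul_zero]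
    rintro ⟨c, hc⟩
    apply hq
    rw [← QuotientGroup.out_eq' q]
    refine ((mk_eq_iff A _ _).2 ⟨c, ?_⟩).symm
    have h7 : q.out = g⁻¹ * (g * q.out) := by group
    conv_lhs => rw [h7]
    rw [map_mul, hc, mul_smul_comm, mul_one]
  · intro h
    exact absurd (Finset.mem_univ _) h

end SPL

theorem t_SPL : S_SPL := by
  intro F _ 𝔊 _ _ _ κ _ _ _ A hA hD s Y hY f hf
  have := Subgroup.fintypeOfIndexNeZero hD
  obtain ⟨y, hy⟩ := hf (delta A s)
  let σ := SPL.sig A hA hD s Y hY y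
  have hσ : ∀ φ : hom A s, f.f (σ.f φ) = φ := SPL.sig_apply A hA hD s Y hY y f hy
  let i : Hom (KER.rp f) Y := ⟨(LinearMap.ker f.f).subtype, fun _ _ => rfl⟩
  have hrm : ∀ x : Y.N, x - σ.f (f.f x) ∈ LinearMap.ker f.f := by
    intro x
    rw [LinearMap.mem_ker, map_sub]
    have h1 : f.f (σ.f (f.f x)) = f.f x := hσ (f.f x)
    rw [h1, sub_self]
  let r : Hom Y (KER.rp f) :=
    { f := LinearMap.codRestrict (LinearMap.ker f.f) (LinearMap.id - σ.f ∘ₗ f.f) hrm
      eq := by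
        intro g x
        apply Subtype.ext
        show Y.ρ g x - σ.f (f.f (Y.ρ g x)) = Y.ρ g (x - σ.f (f.f x))
        rw [f.eq, σ.eq, map_sub] }
  have hri : ∀ x, r.f (i.f x) = x := by
    intro x
    apply Subtype.ext
    show x.1 - σ.f (f.f x.1) = x.1
    have h1 : f.f x.1 = 0 := x.2
    rw [h1, map_zero, sub_zero]
  have hZ : Pu A s (KER.rp f) := by
    intro g c hc
    refine LinearMap.ext fun x => Subtype.ext ?_
    show Y.ρ g x.1 = c ^ s • x.1
    rw [hY g c hc]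
    rfl
  refine ⟨KER.rp f, hZ, ?_, ?_⟩
  · have h5 := LinearMap.finrank_range_add_finrank_ker f.f
    rw [LinearMap.range_eq_top.2 hf, finrank_top] at h5
    have h6 : finrank F (CC A hA hD s).N = (scal A).index := finrank_hom A hD s
    rw [h6] at h5
    show finrank F (LinearMap.ker f.f) + (scal A).index = finrank F Y.N
    omega
  · intro Ω _ _ C W
    have hcomp : (LinearMap.lTensor W.N r.f) ∘ₗ (LinearMap.lTensor W.N i.f) = LinearMap.id := by
      rw [← LinearMap.lTensor_comp]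
      have h1 : r.f ∘ₗ i.f = LinearMap.id := LinearMap.ext hri
      rw [h1, LinearMap.lTensor_id]
    have hr2 : ∀ x, (SPL.lt W r).f ((SPL.lt W i).f x) = x := fun x =>
      LinearMap.congr_fun hcomp x
    have hsum : (LinearMap.lTensor W.N i.f) ∘ₗ (LinearMap.lTensor W.N r.f) +
        (LinearMap.lTensor W.N σ.f) ∘ₗ (LinearMap.lTensor W.N f.f) = LinearMap.id := by
      rw [← LinearMap.lTensor_comp, ← LinearMap.lTensor_comp, ← LinearMap.lTensor_add]
      have h1 : i.f ∘ₗ r.f + σ.f ∘ₗ f.f = LinearMap.id := by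
        refine LinearMap.ext fun x => ?_
        show (x - σ.f (f.f x)) + σ.f (f.f x) = x
        abel
      rw [h1, LinearMap.lTensor_id]
    have hfi : (LinearMap.lTensor W.N f.f) ∘ₗ (LinearMap.lTensor W.N i.f) = 0 := by
      rw [← LinearMap.lTensor_comp]
      have h1 : f.f ∘ₗ i.f = 0 := LinearMap.ext fun x => x.2
      rw [h1, LinearMap.lTensor_zero]
    have hex : Exact (SPL.lt W i) (SPL.lt W f) := by
      refine ⟨Function.LeftInverse.injective hr2, LinearMap.lTensor_surjective W.N hf, ?_⟩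
      intro z
      constructor
      · intro hz
        refine ⟨(SPL.lt W r).f z, ?_⟩
        have h1 := LinearMap.congr_fun hsum z
        have h2 : (LinearMap.lTensor W.N f.f) z = 0 := hz
        rw [LinearMap.add_apply, LinearMap.comp_apply, LinearMap.comp_apply, h2, map_zero,
          add_zero] at h1
        exact h1
      · rintro ⟨x, rfl⟩
        exact LinearMap.congr_fun hfi x
    have h1 := rk_exact_eq C (SPL.lt W i) (SPL.lt W f) hex (SPL.lt W r) hr2
    rw [h1, add_comm]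

end Pool.Agent.K6.H87.SP
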