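import Pool.Agent.K6.H87.SP.Ker
import Pool.Agent.K6.H87.SP.Rep

/-!
Tensor products and the `μ`-invariant (MP_519cc8_nt): statements.
-/

set_option autoImplicit false
set_option linter.unusedSectionVars false

open Module TensorProduct

namespace Pool.Agent.K6.H87.SP

open Pool.Agent.K6.H45.MU

/-- The elements which act on `T` as the scalar `c` act on `X` as the scalar `c ^ j`. -/
def Pu {F : Type} [Field F] {𝔊 : Type} [Group 𝔊] [TopologicalSpace 𝔊] {κ : Type} [Fintype κ]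
    [DecidableEq κ] (A : 𝔊 →* Matrix κ κ F) (j : ℕ) (X : Rp F 𝔊) : Prop :=
  ∀ (g : 𝔊) (c : F), A g = c • (1 : Matrix κ κ F) → X.ρ g = c ^ j • (1 : X.N →ₗ[F] X.N)

/-- PIECE TCC: `X ⊗ CC_s = CC_(j+s)^(dim X)`. -/
def S_TCC : Prop := ∀ (F : Type) [Field F] (𝔊 : Type) [Group 𝔊] [TopologicalSpace 𝔊]
  [IsTopologicalGroup 𝔊] (κ : Type) [Fintype κ] [DecidableEq κ] [Nonempty κ] (Ω : Type)
  [CommRing Ω] [IsDomain Ω] (C : Coh F 𝔊 Ω) (A : 𝔊 →* Matrix κ κ F)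
  (hA : IsOpen {g | A g = 1}) (hD : (scal A).index ≠ 0) (j s : ℕ) (X : Rp F 𝔊), Pu A j X →
  C.rk (tn X (CC A hA hD s)) = finrank F X.N * C.rk (CC A hA hD (j + s))

/-- PIECE SPL: a surjection onto `CC_s` splits, also after tensoring. -/
def S_SPL : Prop := ∀ (F : Type) [Field F] (𝔊 : Type) [Group 𝔊] [TopologicalSpace 𝔊]
  [IsTopologicalGroup 𝔊] (κ : Type) [Fintype κ] [DecidableEq κ] [Nonempty κ]
  (A : 𝔊 →* Matrix κ κ F) (hA : IsOpen {g | A g = 1}) (hD : (scal A).index ≠ 0) (s : ℕ)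
  (Y : Rp F 𝔊), Pu A s Y → ∀ f : Hom Y (CC A hA hD s), Function.Surjective f.f →
  ∃ Z : Rp F 𝔊, Pu A s Z ∧ finrank F Z.N + (scal A).index = finrank F Y.N ∧
    ∀ (Ω : Type) [CommRing Ω] [IsDomain Ω] (C : Coh F 𝔊 Ω) (W : Rp F 𝔊),
      C.rk (tn W Y) = C.rk (tn W (CC A hA hD s)) + C.rk (tn W Z)

/-- PIECE PWT: `W ⊗ Y^a = (W ⊗ Y)^a`. -/
def S_PWT : Prop := ∀ (F : Type) [Field F] (𝔊 : Type) [Group 𝔊] [TopologicalSpace 𝔊]
  [IsTopologicalGroup 𝔊] (Ω : Type) [CommRing Ω] [IsDomain Ω] (C : Coh F 𝔊 Ω) (W Y : Rp F 𝔊)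
  (K : Type) [Fintype K], C.rk (tn W (pw Y K)) = Fintype.card K * C.rk (tn W Y)

/-- PIECE TPS: the sum of `n^s` copies of `T^{⊗ s}` maps onto `CC_s`, for `s ≥ D - 1`. -/
def S_TPS : Prop := ∀ (F : Type) [Field F] (𝔊 : Type) [Group 𝔊] [TopologicalSpace 𝔊]
  [IsTopologicalGroup 𝔊] (κ : Type) [Fintype κ] [DecidableEq κ] [Nonempty κ]
  (A : 𝔊 →* Matrix κ κ F) (hA : IsOpen {g | A g = 1}) (hD : (scal A).index ≠ 0) (s : ℕ),
  (scal A).index ≤ s + 1 →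
  ∃ f : Hom (pw (tp A hA (Fin s)) (Fin s → κ)) (CC A hA hD s), Function.Surjective f.f

end Pool.Agent.K6.H87.SP
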