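import Pool.Agent.K6.H87.SP.StmT

/-!
Tensor products and the `μ`-invariant (MP_519cc8_nt): statement of the piece TPI.
-/

set_option autoImplicit false

open Module TensorProduct

namespace Pool.Agent.K6.H87.SP

open Pool.Agent.K6.H45.MU

/-- PIECE TPI: `(X ⊗ T^{⊗ m}) ⊗ T^{⊗ s} = X ⊗ T^{⊗ (m + s)}`. -/
def S_TPI : Prop := ∀ (F : Type) [Field F] (𝔊 : Type) [Group 𝔊] [TopologicalSpace 𝔊]
  [IsTopologicalGroup 𝔊] (κ : Type) [Fintype κ] [DecidableEq κ] (A : 𝔊 →* Matrix κ κ F)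
  (hA : IsOpen {g | A g = 1}) (X : Rp F 𝔊) (m s : ℕ),
  ∃ f : Hom (tn (tn X (tp A hA (Fin m))) (tp A hA (Fin s))) (tn X (tp A hA (Fin (m + s)))),
    Function.Bijective f.f

end Pool.Agent.K6.H87.SP
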