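import Pool.Agent.K6.H87.SP.StmT

/-!
Tensor products and the `μ`-invariant (MP_519cc8_nt): piece TCC.
-/

set_option autoImplicit false
set_option linter.unusedSectionVars false

open Module TensorProduct

namespace Pool.Agent.K6.H87.SP

open Pool.Agent.K6.H45.MU

namespace TCC

variable {F : Type} [Field F] {κ : Type} [Fintype κ] [DecidableEq κ]
variable {𝔊 : Type} [Group 𝔊] [TopologicalSpace 𝔊] [IsTopologicalGroup 𝔊]

/-- `x ⊗ f ↦ l (g x) f g` -/
noncomputable def ev (A : 𝔊 →* Matrix κ κ F) (s : ℕ) (X : Rp F 𝔊) (l : X.N →ₗ[F] F) (g : 𝔊) :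
    X.N ⊗[F] hom A s →ₗ[F] F :=
  TensorProduct.lift ((LinearMap.toSpanSingleton F _
    ({ toFun := fun f => f.1 g
       map_add' := fun _ _ => rfl
       map_smul' := fun _ _ => rfl } : hom A s →ₗ[F] F)) ∘ₗ (l ∘ₗ X.ρ g))

theorem ev_tmul (A : 𝔊 →* Matrix κ κ F) (s : ℕ) (X : Rp F 𝔊) (l : X.N →ₗ[F] F) (g : 𝔊)
    (x : X.N) (f : hom A s) : ev A s X l g (x ⊗ₜ[F] f) = l (X.ρ g x) * f.1 g := by
  unfold ev
  rw [TensorProduct.lift.tmul]
  rfl

theorem ev_hom (A : 𝔊 →* Matrix κ κ F) (j s : ℕ) (X : Rp F 𝔊) (hX : Pu A j X)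
    (l : X.N →ₗ[F] F) (z : X.N ⊗[F] hom A s) (g g' : 𝔊) (c : F) (hc : A g' = c • A g) :
    ev A s X l g' z = c ^ (j + s) * ev A s X l g z := by
  induction z using TensorProduct.induction_on with
  | zero => rw [map_zero, map_zero, mul_zero]
  | add z w hz hw => rw [map_add, map_add, hz, hw, mul_add]
  | tmul x f =>
    rw [ev_tmul, ev_tmul, f.2 g g' c hc]
    have h2 : A (g' * g⁻¹) = c • (1 : Matrix κ κ F) := by
      rw [map_mul, hc, smul_mul_assoc, ← map_mul, mul_inv_cancel, map_one]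
    have h3 : g' = (g' * g⁻¹) * g := by group
    have h4 : X.ρ g' = X.ρ (g' * g⁻¹) * X.ρ g := by rw [← map_mul, ← h3]
    have h1 : X.ρ g' x = c ^ j • X.ρ g x := by
      rw [h4, hX _ c h2]
      rfl
    rw [h1, map_smul, smul_eq_mul, pow_add]
    ring

theorem ev_trans (A : 𝔊 →* Matrix κ κ F) (s : ℕ) (X : Rp F 𝔊) (l : X.N →ₗ[F] F) (g h : 𝔊)
    (z : X.N ⊗[F] hom A s) :
    ev A s X l g (TensorProduct.map (X.ρ h) (trans A s h) z) = ev A s X l (g * h) z := by
  induction z using TensorProduct.induction_on with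
  | zero => simp only [map_zero]
  | add z w hz hw => rw [map_add, map_add, map_add, hz, hw]
  | tmul x f =>
    rw [TensorProduct.map_tmul, ev_tmul, ev_tmul]
    have h1 : X.ρ g (X.ρ h x) = X.ρ (g * h) x := by
      rw [map_mul]
      rfl
    rw [h1]
    rfl

/-- the map to the homogeneous functions -/
noncomputable def Th (A : 𝔊 →* Matrix κ κ F) (hA : IsOpen {g | A g = 1})
    (hD : (scal A).index ≠ 0) (j s : ℕ) (X : Rp F 𝔊) (hX : Pu A j X) {r : ℕ}
    (v : Basis (Fin r) F X.N) :
    Hom (tn X (CC A hA hD s)) (pw (CC A hA hD (j + s)) (Fin r)) where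
  f :=
    { toFun := fun z a => (⟨fun g => ev A s X (v.coord a) g z,
        fun g g' c hc => ev_hom A j s X hX (v.coord a) z g g' c hc⟩ : hom A (j + s))
      map_add' := by
        intro z w
        funext a
        apply Subtype.ext
        funext g
        exact (ev A s X (v.coord a) g).map_add z w
      map_smul' := by
        intro c z
        funext a
        apply Subtype.ext
        funext g
        exact (ev A s X (v.coord a) g).map_smul c z }
  eq := by
    intro h z
    funext a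
    apply Subtype.ext
    funext g
    exact ev_trans A s X (v.coord a) g h z

theorem Th_apply (A : 𝔊 →* Matrix κ κ F) (hA : IsOpen {g | A g = 1})
    (hD : (scal A).index ≠ 0) (j s : ℕ) (X : Rp F 𝔊) (hX : Pu A j X) {r : ℕ}
    (v : Basis (Fin r) F X.N) (z : X.N ⊗[F] hom A s) (a : Fin r) (g : 𝔊) :
    Subtype.val (p := fun f => f ∈ hom A (j + s)) ((Th A hA hD j s X hX v).f z a) g =
      ev A s X (v.coord a) g z := rfl

theorem Th_surj [Nonempty κ] (A : 𝔊 →* Matrix κ κ F) (hA : IsOpen {g | A g = 1})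
    (hD : (scal A).index ≠ 0) (j s : ℕ) (X : Rp F 𝔊) (hX : Pu A j X) {r : ℕ}
    (v : Basis (Fin r) F X.N) : Function.Surjective (Th A hA hD j s X hX v).f := by
  classical
  have := Subgroup.fintypeOfIndexNeZero hD
  intro Φ
  let Φ' : Fin r → hom A (j + s) := Φ
  let z : X.N ⊗[F] hom A s := ∑ a, ∑ q : 𝔊 ⧸ scal A,
    (X.ρ (q.out)⁻¹ (v a)) ⊗ₜ[F] ((Φ' a).1 q.out • trans A s (q.out)⁻¹ (delta A s))
  refine ⟨z, ?_⟩
  have key : ∀ (a' : Fin r) (q' : 𝔊 ⧸ scal A), ev A s X (v.coord a') q'.out z =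
      (Φ' a').1 q'.out := by
    intro a' q'
    have h1 : ev A s X (v.coord a') q'.out z = ∑ a, ∑ q : 𝔊 ⧸ scal A,
        v.coord a' (X.ρ q'.out (X.ρ (q.out)⁻¹ (v a))) *
          ((Φ' a).1 q.out * (delta A s).1 (q'.out * (q.out)⁻¹)) := by
      rw [map_sum]
      refine Finset.sum_congr rfl fun a _ => ?_
      rw [map_sum]
      refine Finset.sum_congr rfl fun q _ => ?_
      rw [ev_tmul]
      rfl
    rw [h1]
    have h2 : ∀ a, ∑ q : 𝔊 ⧸ scal A, v.coord a' (X.ρ q'.out (X.ρ (q.out)⁻¹ (v a))) *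
          ((Φ' a).1 q.out * (delta A s).1 (q'.out * (q.out)⁻¹)) =
        v.coord a' (v a) * (Φ' a).1 q'.out := by
      intro a
      rw [Finset.sum_eq_single q']
      · have h4 : X.ρ q'.out (X.ρ (q'.out)⁻¹ (v a)) = v a := by
          rw [← Module.End.mul_apply, ← map_mul, mul_inv_cancel, map_one]
          rfl
        rw [h4, mul_inv_cancel, delta_one, mul_one]
      · intro q _ hq
        rw [delta_neg A s, mul_zero, mul_zero]
        rintro ⟨c, hc⟩
        apply hq
        rw [← QuotientGroup.out_eq' q, ← QuotientGroup.out_eq' q']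
        refine (mk_eq_iff A _ _).2 ⟨c, ?_⟩
        have h7 : q'.out = (q'.out * (q.out)⁻¹) * q.out := by group
        conv_lhs => rw [h7]
        rw [map_mul, hc, smul_mul_assoc, one_mul]
      · intro h
        exact absurd (Finset.mem_univ _) h
    simp only [h2]
    rw [Finset.sum_eq_single a']
    · rw [Basis.coord_apply, Basis.repr_self, Finsupp.single_eq_same, one_mul]
    · intro a _ ha
      rw [Basis.coord_apply, Basis.repr_self, Finsupp.single_eq_of_ne (Ne.symm ha), zero_mul]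
    · intro h
      exact absurd (Finset.mem_univ _) h
  funext a
  have h5 : ((Th A hA hD j s X hX v).f z a : hom A (j + s)) = Φ' a := by
    apply Subtype.ext
    funext g
    have h6 : (QuotientGroup.mk (QuotientGroup.mk g : 𝔊 ⧸ scal A).out : 𝔊 ⧸ scal A) =
        QuotientGroup.mk g := QuotientGroup.out_eq' _
    obtain ⟨c, hc⟩ := (mk_eq_iff A _ _).1 h6
    have h7 := ev_hom A j s X hX (v.coord a) z _ _ c hc
    have h8 := (Φ' a).2 _ _ c hc
    rw [key a] at h7
    exact h7.trans h8.symm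
  exact h5

end TCC

theorem t_TCC : S_TCC := by
  intro F _ 𝔊 _ _ _ κ _ _ _ Ω _ _ C A hA hD j s X hX
  let v := Module.finBasis F X.N
  have hs := TCC.Th_surj A hA hD j s X hX v
  have e1 : finrank F (tn X (CC A hA hD s)).N =
      finrank F (pw (CC A hA hD (j + s)) (Fin (finrank F X.N))).N := by
    have h1 : finrank F (tn X (CC A hA hD s)).N = finrank F X.N * finrank F (hom A s) :=
      Module.finrank_tensorProduct
    have h2 : finrank F (pw (CC A hA hD (j + s)) (Fin (finrank F X.N))).N =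
        finrank F X.N * finrank F (hom A (j + s)) := by
      show finrank F (Fin (finrank F X.N) → hom A (j + s)) = _
      have := hom_finite A hD (j + s)
      rw [Module.finrank_pi_fintype]
      simp only [Finset.sum_const, Finset.card_univ, Fintype.card_fin, smul_eq_mul]
    rw [h1, h2, finrank_hom A hD, finrank_hom A hD]
  have hi : Function.Injective (TCC.Th A hA hD j s X hX v).f :=
    (LinearMap.injective_iff_surjective_of_finrank_eq_finrank e1).2 hs
  rw [rk_eq_of_bij C (TCC.Th A hA hD j s X hX v) ⟨hi, hs⟩, rk_pw, Fintype.card_fin]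

end Pool.Agent.K6.H87.SP
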