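import Pool.Agent.K6.H87.SP.StmT2

/-!
Piece TPI (helper59): `(X ⊗ T^{⊗ m}) ⊗ T^{⊗ s} = X ⊗ T^{⊗ (m + s)}`.
-/

set_option autoImplicit false

open Module TensorProduct

namespace Pool.Agent.K6.H87.SP

open Pool.Agent.K6.H45.MU

namespace TPI

variable {F : Type} [Field F] {κ : Type} [Fintype κ] [DecidableEq κ]

/-- the product of two functions in separate variables -/
noncomputable def mu (F κ : Type) [Field F] (m s : ℕ) :
    (((Fin m → κ) → F) ⊗[F] ((Fin s → κ) → F)) →ₗ[F] ((Fin (m + s) → κ) → F) :=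
  TensorProduct.lift (LinearMap.mk₂ F
    (fun u v β => u (fun i => β (Fin.castAdd s i)) * v (fun i => β (Fin.natAdd m i)))
    (fun u u' v => by funext β; exact add_mul _ _ _)
    (fun c u v => by funext β; exact mul_assoc _ _ _)
    (fun u v v' => by funext β; exact mul_add _ _ _)
    (fun c u v => by funext β; exact mul_left_comm _ _ _))

omit [Fintype κ] [DecidableEq κ] in
theorem mu_tmul (m s : ℕ) (u : (Fin m → κ) → F) (v : (Fin s → κ) → F) (β : Fin (m + s) → κ) :
    mu F κ m s (u ⊗ₜ[F] v) β =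
      u (fun i => β (Fin.castAdd s i)) * v (fun i => β (Fin.natAdd m i)) := rfl

theorem mu_bij (m s : ℕ) : Function.Bijective (mu F κ m s) := by
  let b1 := (Pi.basisFun F (Fin m → κ)).tensorProduct (Pi.basisFun F (Fin s → κ))
  let b2 := Pi.basisFun F (Fin (m + s) → κ)
  let e := b1.equiv b2 (Fin.appendEquiv m s)
  have h : mu F κ m s = e.toLinearMap := by
    refine b1.ext fun x => ?_
    obtain ⟨α, β⟩ := x
    have h1 : e (b1 (α, β)) = b2 (Fin.appendEquiv m s (α, β)) := b1.equiv_apply _ b2 _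
    show mu F κ m s (b1 (α, β)) = e (b1 (α, β))
    rw [h1]
    have h2 : b1 (α, β) = (Pi.single α (1 : F)) ⊗ₜ[F] (Pi.single β (1 : F)) := by
      simp [b1]
    have h3 : b2 (Fin.appendEquiv m s (α, β)) = Pi.single (Fin.append α β) (1 : F) := by
      simp [b2, Fin.appendEquiv]
    rw [h2, h3]
    funext γ
    rw [mu_tmul, Pi.single_apply, Pi.single_apply, Pi.single_apply]
    by_cases hγ : γ = Fin.append α β
    · subst hγ
      rw [if_pos (funext fun i => Fin.append_left _ _ _),
        if_pos (funext fun i => Fin.append_right _ _ _), if_pos rfl, one_mul]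
    · rw [if_neg hγ]
      by_cases h4 : (fun i => γ (Fin.castAdd s i)) = α
      · by_cases h5 : (fun i => γ (Fin.natAdd m i)) = β
        · exfalso
          apply hγ
          funext i
          refine Fin.addCases (fun j => ?_) (fun j => ?_) i
          · rw [Fin.append_left, ← h4]
          · rw [Fin.append_right, ← h5]
        · rw [if_neg h5, mul_zero]
      · rw [if_neg h4, zero_mul]
  rw [h]
  exact e.bijective

omit [DecidableEq κ] in
theorem mu_kr (m s : ℕ) (a : Matrix κ κ F) (u : (Fin m → κ) → F) (v : (Fin s → κ) → F) :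
    mu F κ m s (((kr (Fin m) a).mulVec u) ⊗ₜ[F] ((kr (Fin s) a).mulVec v)) =
      (kr (Fin (m + s)) a).mulVec (mu F κ m s (u ⊗ₜ[F] v)) := by
  funext β
  rw [mu_tmul]
  show (∑ γ, kr (Fin m) a (fun i => β (Fin.castAdd s i)) γ * u γ) *
    (∑ δ, kr (Fin s) a (fun i => β (Fin.natAdd m i)) δ * v δ) =
    ∑ ε, kr (Fin (m + s)) a β ε * (u (fun i => ε (Fin.castAdd s i)) *
      v (fun i => ε (Fin.natAdd m i)))
  rw [Finset.sum_mul_sum, ← Equiv.sum_comp (Fin.appendEquiv m s), Fintype.sum_prod_type]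
  refine Finset.sum_congr rfl fun γ _ => Finset.sum_congr rfl fun δ _ => ?_
  have h1 : Fin.appendEquiv m s (γ, δ) = Fin.append γ δ := rfl
  have h2 : (fun i => Fin.append γ δ (Fin.castAdd s i)) = γ := funext fun i => Fin.append_left _ _ _
  have h3 : (fun i => Fin.append γ δ (Fin.natAdd m i)) = δ := funext fun i => Fin.append_right _ _ _
  have h4 : kr (Fin (m + s)) a β (Fin.append γ δ) =
      kr (Fin m) a (fun i => β (Fin.castAdd s i)) γ * kr (Fin s) a (fun i => β (Fin.natAdd m i)) δ := by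
    unfold kr
    rw [Fin.prod_univ_add]
    congr 1
    · exact Finset.prod_congr rfl fun i _ => by rw [Fin.append_left]
    · exact Finset.prod_congr rfl fun i _ => by rw [Fin.append_right]
  rw [h1, h2, h3, h4]
  ring

end TPI

open TPI in
theorem t_TPI : S_TPI := by
  intro F _ 𝔊 _ _ _ κ _ _ A hA X m s
  let f : ((X.N ⊗[F] ((Fin m → κ) → F)) ⊗[F] ((Fin s → κ) → F)) →ₗ[F]
      (X.N ⊗[F] ((Fin (m + s) → κ) → F)) :=
    (LinearMap.lTensor X.N (mu F κ m s)) ∘ₗ
      (TensorProduct.assoc F X.N ((Fin m → κ) → F) ((Fin s → κ) → F)).toLinearMap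
  have hf : Function.Bijective f := by
    have h1 : LinearMap.lTensor X.N (mu F κ m s) = (TensorProduct.congr (LinearEquiv.refl F X.N)
        (LinearEquiv.ofBijective (mu F κ m s) (mu_bij m s))).toLinearMap := by
      ext
      rfl
    have h2 : Function.Bijective (LinearMap.lTensor X.N (mu F κ m s)) := by
      rw [h1]
      exact LinearEquiv.bijective _
    exact h2.comp (LinearEquiv.bijective _)
  refine ⟨⟨f, ?_⟩, hf⟩
  intro g z
  have h : f ∘ₗ (tn (tn X (tp A hA (Fin m))) (tp A hA (Fin s))).ρ g =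
      (tn X (tp A hA (Fin (m + s)))).ρ g ∘ₗ f := by
    refine TensorProduct.ext_threefold fun x u v => ?_
    exact congrArg (fun w : (Fin (m + s) → κ) → F => X.ρ g x ⊗ₜ[F] w) (mu_kr m s (A g) u v)
  exact LinearMap.congr_fun h z

end Pool.Agent.K6.H87.SP
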