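import Pool.Agent.K6.H45.MU.Theta
import Pool.Agent.K6.H87.SP.StmT

/-!
Tensor products and the `μ`-invariant (MP_519cc8_nt): piece TPS.
-/

set_option autoImplicit false

open Module

namespace Pool.Agent.K6.H87.SP

open Pool.Agent.K6.H45.MU

namespace TPS

variable {F : Type} [Field F] {𝔊 : Type} [Group 𝔊] [TopologicalSpace 𝔊] [IsTopologicalGroup 𝔊]
variable {κ : Type} [Fintype κ] [DecidableEq κ]

theorem cover_mono [Nonempty κ] (A : 𝔊 →* Matrix κ κ F) {r s : ℕ} (h : r ≤ s)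
    (hc : Cover A r) : Cover A s := by
  obtain ⟨L, hL1, hL0⟩ := hc
  obtain ⟨k⟩ := ‹Nonempty κ›
  refine ⟨fun i => if h : (i : ℕ) < r then L ⟨i, h⟩ else x0 k, fun i => ?_, fun g hg => ?_⟩
  · by_cases h' : (i : ℕ) < r
    · show (if h : (i : ℕ) < r then L ⟨i, h⟩ else x0 k) 1 = 1
      rw [dif_pos h']
      exact hL1 _
    · show (if h : (i : ℕ) < r then L ⟨i, h⟩ else x0 k) 1 = 1
      rw [dif_neg h']
      exact Matrix.one_apply_eq k
  · obtain ⟨i, hi⟩ := hL0 g hg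
    refine ⟨⟨i, i.2.trans_le h⟩, ?_⟩
    show (if h : (i : ℕ) < r then L ⟨i, h⟩ else x0 k) (A g) = 0
    rw [dif_pos i.2]
    exact hi

/-- reindexing -/
def R (ι ι' K : Type) (e : ι ≃ ι') : (K → (ι → κ) → F) →ₗ[F] (K → (ι' → κ) → F) where
  toFun x J γ := x J (fun i => γ (e i))
  map_add' _ _ := rfl
  map_smul' _ _ := rfl

theorem R_surj (ι ι' K : Type) (e : ι ≃ ι') : Function.Surjective (R (F := F) (κ := κ) ι ι' K e) := by
  intro y
  refine ⟨fun J β => y J (fun i => β (e.symm i)), ?_⟩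
  funext J γ
  show y J (fun i => γ (e (e.symm i))) = y J γ
  congr 1
  funext i
  rw [e.apply_symm_apply]

end TPS

open TPS in
theorem t_TPS : S_TPS := by
  intro F _ 𝔊 _ _ _ κ _ _ _ A hA hD s hs
  obtain ⟨L, hL1, hL0⟩ := cover_mono A (s := s) (by omega) (cover_index A hD)
  have main : ∀ c, Fintype.card (Fin s ⊕ Fin 0) = c →
      ∃ f : Hom (pw (tp A hA (Fin s)) (Fin s → κ)) (CC A hA hD c), Function.Surjective f.f := by
    intro c hc
    subst hc
    let e : Fin s ≃ Fin s ⊕ Fin 0 := (Equiv.sumEmpty (Fin s) (Fin 0)).symm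
    let k0 : Fin 0 → κ := fun i => i.elim0
    let f : Hom (pw (tp A hA (Fin s)) (Fin s → κ)) (CC A hA hD (Fintype.card (Fin s ⊕ Fin 0))) :=
      { f := (LinearMap.proj k0) ∘ₗ (PsiF (Fin 0) A L) ∘ₗ (R (Fin s) (Fin s ⊕ Fin 0) (Fin s → κ) e)
        eq := by
          intro h x
          apply Subtype.ext
          funext g
          have h1 : R (F := F) (κ := κ) (Fin s) (Fin s ⊕ Fin 0) (Fin s → κ) e
              ((pw (tp A hA (Fin s)) (Fin s → κ)).ρ h x) =
              fun J => (Matrix.toLin' (kr (Fin s ⊕ Fin 0) (A h)))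
                (R (F := F) (κ := κ) (Fin s) (Fin s ⊕ Fin 0) (Fin s → κ) e x J) := by
            funext J γ
            exact (kr_reindex e (A h) (x J) γ).symm
          show (PsiF (Fin 0) A L (R (F := F) (κ := κ) (Fin s) (Fin s ⊕ Fin 0) (Fin s → κ) e
              ((pw (tp A hA (Fin s)) (Fin s → κ)).ρ h x)) k0).1 g =
            (PsiF (Fin 0) A L (R (F := F) (κ := κ) (Fin s) (Fin s ⊕ Fin 0) (Fin s → κ) e x)
              k0).1 (g * h)
          rw [h1]
          exact PsiF_eq A L h _ k0 g }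
    refine ⟨f, ?_⟩
    intro φ
    obtain ⟨y, hy⟩ := Psi_surj (ι2 := Fin 0) A hD L hL1 (fun q hq => hL0 _ (fun h => hq (by
      rw [← QuotientGroup.out_eq' q, eq_comm, QuotientGroup.eq, inv_one, one_mul]
      exact h))) (fun _ => φ)
    obtain ⟨x, hx⟩ := R_surj (F := F) (κ := κ) (Fin s) (Fin s ⊕ Fin 0) (Fin s → κ) e y
    refine ⟨x, ?_⟩
    show PsiF (Fin 0) A L (R (F := F) (κ := κ) (Fin s) (Fin s ⊕ Fin 0) (Fin s → κ) e x) k0 = φ
    rw [hx, hy]
  exact main s (by simp)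

end Pool.Agent.K6.H87.SP
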