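import Pool.Agent.K6.H87.SP.StmT
import Pool.Agent.K6.H87.SP.Low

/-!
Tensor products and the `μ`-invariant (MP_519cc8_nt): the recursion.
-/

set_option autoImplicit false
set_option linter.unusedSectionVars false

open Module TensorProduct

namespace Pool.Agent.K6.H87.SP

open Pool.Agent.K6.H45.MU

variable {F : Type} [Field F] {κ : Type} [Fintype κ] [DecidableEq κ]
variable {𝔊 : Type} [Group 𝔊] [TopologicalSpace 𝔊] [IsTopologicalGroup 𝔊]

/-- `X ⊗ Y ⊗ ⋯ ⊗ Y`, with `k` factors `Y` -/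
noncomputable def it (X Y : Rp F 𝔊) : ℕ → Rp F 𝔊
  | 0 => X
  | k + 1 => tn (it X Y k) Y

theorem pu_tn {A : 𝔊 →* Matrix κ κ F} {j s : ℕ} {X Y : Rp F 𝔊} (hX : Pu A j X)
    (hY : Pu A s Y) : Pu A (j + s) (tn X Y) := by
  intro g c hc
  have h2 : TensorProduct.map (X.ρ g) (Y.ρ g) = c ^ (j + s) • (1 : X.N ⊗[F] Y.N →ₗ[F] _) := by
    rw [hX g c hc, hY g c hc, TensorProduct.map_smul_left, TensorProduct.map_smul_right,
      TensorProduct.map_one, smul_smul, pow_add]
  exact h2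

theorem pu_it {A : 𝔊 →* Matrix κ κ F} {j s : ℕ} {X Y : Rp F 𝔊} (hX : Pu A j X)
    (hY : Pu A s Y) (k : ℕ) : Pu A (j + s * k) (it X Y k) := by
  induction k with
  | zero => exact hX
  | succ k ih =>
    have h1 := pu_tn ih hY
    have h2 : j + s * (k + 1) = j + s * k + s := by ring
    rw [h2]
    exact h1

theorem dim_tn (X Y : Rp F 𝔊) : finrank F (tn X Y).N = finrank F X.N * finrank F Y.N :=
  Module.finrank_tensorProduct

theorem dim_it (X Y : Rp F 𝔊) (k : ℕ) :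
    finrank F (it X Y k).N = finrank F X.N * finrank F Y.N ^ k := by
  induction k with
  | zero => rw [pow_zero, mul_one]; rfl
  | succ k ih =>
    show finrank F (tn (it X Y k) Y).N = _
    rw [dim_tn, ih, pow_succ, mul_assoc]

/-- isomorphic representations -/
def Iso (X Y : Rp F 𝔊) : Prop := ∃ f : Hom X Y, Function.Bijective f.f

theorem Iso.refl (X : Rp F 𝔊) : Iso X X := ⟨Hom.id X, Function.bijective_id⟩

theorem Iso.trans {X Y Z : Rp F 𝔊} (h : Iso X Y) (h' : Iso Y Z) : Iso X Z := by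
  obtain ⟨f, hf⟩ := h
  obtain ⟨g, hg⟩ := h'
  exact ⟨g.comp f, hg.comp hf⟩

theorem Iso.rk {Ω : Type} [CommRing Ω] [IsDomain Ω] (C : Coh F 𝔊 Ω) {X Y : Rp F 𝔊}
    (h : Iso X Y) : C.rk X = C.rk Y := by
  obtain ⟨f, hf⟩ := h
  exact rk_eq_of_bij C f hf

theorem Iso.tn {V V' : Rp F 𝔊} (h : Iso V V') (Y : Rp F 𝔊) : Iso (tn V Y) (tn V' Y) := by
  obtain ⟨f, hf⟩ := h
  let e := LinearEquiv.ofBijective f.f hf
  refine ⟨⟨TensorProduct.map f.f LinearMap.id, ?_⟩, ?_⟩
  · intro g z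
    have h1 : (TensorProduct.map f.f (LinearMap.id : Y.N →ₗ[F] Y.N)) ∘ₗ
        (TensorProduct.map (V.ρ g) (Y.ρ g)) =
        (TensorProduct.map (V'.ρ g) (Y.ρ g)) ∘ₗ TensorProduct.map f.f LinearMap.id := by
      apply TensorProduct.ext'
      intro x y
      rw [LinearMap.comp_apply, LinearMap.comp_apply, TensorProduct.map_tmul,
        TensorProduct.map_tmul, TensorProduct.map_tmul, TensorProduct.map_tmul, f.eq]
      rfl
    exact LinearMap.congr_fun h1 z
  · exact (TensorProduct.congr e (LinearEquiv.refl F Y.N)).bijective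

theorem rcomm (V Y Z : Rp F 𝔊) :
    Iso (Pool.Agent.K6.H87.SP.tn (Pool.Agent.K6.H87.SP.tn V Y) Z)
      (Pool.Agent.K6.H87.SP.tn (Pool.Agent.K6.H87.SP.tn V Z) Y) := by
  refine ⟨⟨(TensorProduct.rightComm F V.N Y.N Z.N).toLinearMap, ?_⟩,
    (TensorProduct.rightComm F V.N Y.N Z.N).bijective⟩
  intro g z
  have h1 : ((TensorProduct.rightComm F V.N Y.N Z.N).toLinearMap) ∘ₗ
      (TensorProduct.map (TensorProduct.map (V.ρ g) (Y.ρ g)) (Z.ρ g)) =
      (TensorProduct.map (TensorProduct.map (V.ρ g) (Z.ρ g)) (Y.ρ g)) ∘ₗ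
        ((TensorProduct.rightComm F V.N Y.N Z.N).toLinearMap) := by
    apply TensorProduct.ext_threefold
    intro x y z
    rfl
  exact LinearMap.congr_fun h1 z

theorem it_comm (X Y Z : Rp F 𝔊) (k : ℕ) : Iso (Pool.Agent.K6.H87.SP.tn (it X Y k) Z)
    (it (Pool.Agent.K6.H87.SP.tn X Z) Y k) := by
  induction k with
  | zero => exact Iso.refl _
  | succ k ih => exact (rcomm (it X Y k) Y Z).trans (ih.tn Y)

/-- the two bounds for the tensor products with the powers of `Y` -/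
theorem rec_bounds (hT : S_TCC) (hS : S_SPL) (hP : S_PWT) [Nonempty κ] {Ω : Type} [CommRing Ω]
    [IsDomain Ω] (C : Coh F 𝔊 Ω) (A : 𝔊 →* Matrix κ κ F) (hA : IsOpen {g | A g = 1})
    (hD : (scal A).index ≠ 0) (s : ℕ) (Y : Rp F 𝔊) (hY : Pu A s Y) (K : Type) [Fintype K]
    (f : Hom (pw Y K) (CC A hA hD s)) (hf : Function.Surjective f.f) :
    ∃ v : ℕ, v + (scal A).index = Fintype.card K * finrank F Y.N ∧
    ∀ (k j : ℕ) (X : Rp F 𝔊), Pu A j X →
      finrank F X.N * (Fintype.card K * finrank F Y.N) ^ k * C.rk (CC A hA hD (j + s * k)) ≤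
        (scal A).index * Fintype.card K ^ k * C.rk (it X Y k) +
          finrank F X.N * v ^ k * C.rk (CC A hA hD (j + s * k)) ∧
      (scal A).index * Fintype.card K ^ k * C.rk (it X Y k) ≤
        finrank F X.N * ((Fintype.card K * finrank F Y.N) ^ k + ((scal A).index - 1) * v ^ k) *
          C.rk (CC A hA hD (j + s * k)) := by
  have hYp : Pu A s (pw Y K) := by
    intro g c hc
    refine LinearMap.ext fun u => ?_
    funext b
    show Y.ρ g (u b) = _
    rw [hY g c hc]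
    rfl
  obtain ⟨Z, hZ, hZd, hZr⟩ := hS F 𝔊 κ A hA hD s (pw Y K) hYp f hf
  have hpd : finrank F (pw Y K).N = Fintype.card K * finrank F Y.N := by
    show finrank F (K → Y.N) = _
    rw [Module.finrank_pi_fintype]
    simp only [Finset.sum_const, Finset.card_univ, smul_eq_mul]
  refine ⟨finrank F Z.N, by rw [hZd, hpd], ?_⟩
  obtain ⟨D, hDD⟩ : ∃ D, D + 1 = (scal A).index := ⟨(scal A).index - 1, by omega⟩
  obtain ⟨a, ha⟩ : ∃ a, a = Fintype.card K := ⟨_, rfl⟩
  obtain ⟨y, hy⟩ : ∃ y, y = finrank F Y.N := ⟨_, rfl⟩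
  obtain ⟨v, hv⟩ : ∃ v, v = finrank F Z.N := ⟨_, rfl⟩
  have hu : v + (D + 1) = a * y := by rw [hv, hDD, ha, hy, hZd, hpd]
  rw [← hDD, ← ha, ← hy, ← hv]
  have hD1 : D + 1 - 1 = D := rfl
  rw [hD1]
  intro k
  induction k with
  | zero =>
    intro j X hX
    have h1 := built_le C A hA hD j X (Built.base X hX)
    have h2 : C.rk (it X Y 0) = C.rk X := rfl
    rw [h2]
    simp only [pow_zero, mul_one, mul_zero, add_zero]
    constructor
    · exact Nat.le_add_left _ _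
    · calc (D + 1) * C.rk X ≤ (D + 1) * (finrank F X.N * C.rk (CC A hA hD j)) := by gcongr
        _ = finrank F X.N * (1 + D) * C.rk (CC A hA hD j) := by ring
  | succ k ih =>
    intro j X hX
    obtain ⟨i1, i2⟩ := ih (j + s) (tn X Z) (pu_tn hX hZ)
    have e1 : j + s + s * k = j + s * (k + 1) := by ring
    have e2 : finrank F (tn X Z).N = finrank F X.N * v := by rw [dim_tn, ← hv]
    rw [e1, e2] at i1 i2
    have e3 : a * C.rk (it X Y (k + 1)) =
        finrank F X.N * y ^ k * C.rk (CC A hA hD (j + s * (k + 1))) +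
          C.rk (it (tn X Z) Y k) := by
      have h1 : C.rk (it X Y (k + 1)) = C.rk (tn (it X Y k) Y) := rfl
      rw [h1, ha, ← hP F 𝔊 Ω C (it X Y k) Y K, hZr Ω C (it X Y k),
        hT F 𝔊 κ Ω C A hA hD (j + s * k) s (it X Y k) (pu_it hX hY k), dim_it, ← hy,
        (it_comm X Y Z k).rk C]
      have h2 : j + s * k + s = j + s * (k + 1) := by ring
      rw [h2]
    obtain ⟨R, hR⟩ : ∃ R, R = C.rk (it X Y (k + 1)) := ⟨_, rfl⟩
    obtain ⟨R', hR'⟩ : ∃ R', R' = C.rk (it (tn X Z) Y k) := ⟨_, rfl⟩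
    obtain ⟨ρ, hρ⟩ : ∃ ρ, ρ = C.rk (CC A hA hD (j + s * (k + 1))) := ⟨_, rfl⟩
    obtain ⟨x, hx⟩ : ∃ x, x = finrank F X.N := ⟨_, rfl⟩
    rw [← hR, ← hR', ← hρ, ← hx] at e3
    rw [← hR', ← hρ, ← hx] at i1 i2
    rw [← hR, ← hρ, ← hx]
    have e4 : (D + 1) * a ^ (k + 1) * R =
        (D + 1) * x * (a * y) ^ k * ρ + (D + 1) * a ^ k * R' := by
      have h1 : (D + 1) * a ^ (k + 1) * R = (D + 1) * a ^ k * (a * R) := by ring
      rw [h1, e3, mul_pow]
      ring
    rw [e4]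
    constructor
    · have h1 : x * (a * y) ^ (k + 1) * ρ =
          x * v * (a * y) ^ k * ρ + (D + 1) * x * (a * y) ^ k * ρ := by
        rw [pow_succ, ← hu]
        ring
      have h2 : x * v ^ (k + 1) * ρ = x * v * v ^ k * ρ := by ring
      rw [h1, h2]
      omega
    · have h1 : x * ((a * y) ^ (k + 1) + D * v ^ (k + 1)) * ρ =
          x * v * ((a * y) ^ k + D * v ^ k) * ρ + (D + 1) * x * (a * y) ^ k * ρ := by
        rw [pow_succ (a * y), ← hu]
        ring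
      rw [h1]
      omega

theorem pu_tp (A : 𝔊 →* Matrix κ κ F) (hA : IsOpen {g | A g = 1}) (s : ℕ) :
    Pu A s (tp A hA (Fin s)) := by
  intro g c hc
  show Matrix.toLin' (kr (Fin s) (A g)) = _
  rw [hc, kr_smul, kr_one, map_smul, Matrix.toLin'_one, Fintype.card_fin]
  rfl

theorem dim_tp (A : 𝔊 →* Matrix κ κ F) (hA : IsOpen {g | A g = 1}) (s : ℕ) :
    finrank F (tp A hA (Fin s)).N = Fintype.card κ ^ s := by
  show finrank F ((Fin s → κ) → F) = _
  rw [Module.finrank_fintype_fun_eq_card, Fintype.card_fun, Fintype.card_fin]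

end Pool.Agent.K6.H87.SP
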