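import Pool.Agent.K6.H87.SP.Ten
import Pool.Agent.K6.H87.SP.StmT2

/-!
Tensor products and the `μ`-invariant (MP_519cc8_nt): all tensor powers.
-/

set_option autoImplicit false
set_option linter.unusedSectionVars false

open Module TensorProduct

namespace Pool.Agent.K6.H87.SP

open Pool.Agent.K6.H45.MU

variable {F : Type} [Field F] {κ : Type} [Fintype κ] [DecidableEq κ]
variable {𝔊 : Type} [Group 𝔊] [TopologicalSpace 𝔊] [IsTopologicalGroup 𝔊]

theorem it_tp (hTPI : S_TPI) (A : 𝔊 →* Matrix κ κ F) (hA : IsOpen {g | A g = 1}) (X : Rp F 𝔊)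
    (t s k : ℕ) : Iso (it (tn X (tp A hA (Fin t))) (tp A hA (Fin s)) k)
      (tn X (tp A hA (Fin (t + s * k)))) := by
  induction k with
  | zero => exact Iso.refl _
  | succ k ih =>
    obtain ⟨f, hf⟩ := hTPI F 𝔊 κ A hA X (t + s * k) s
    have h1 : Iso (tn (tn X (tp A hA (Fin (t + s * k)))) (tp A hA (Fin s)))
        (tn X (tp A hA (Fin (t + s * k + s)))) := ⟨f, hf⟩
    have e : t + s * (k + 1) = t + s * k + s := by ring
    rw [e]
    exact (ih.tn (tp A hA (Fin s))).trans h1

end Pool.Agent.K6.H87.SP
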