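import Pool.Agent.K6.H45.MU.Theta

/-!
# Piece `UP`: the dimension of the homogeneous functions, the upper bound, two congruences
-/

set_option autoImplicit false

namespace Pool.Agent.K6.H87.SP

open Module Pool.Agent.K6.H45.MU

variable {F : Type} [Field F] {𝔊 : Type} [Group 𝔊] [TopologicalSpace 𝔊] [IsTopologicalGroup 𝔊]
variable {κ : Type} [Fintype κ] [DecidableEq κ]

/-- the evaluation at the representatives of the cosets -/
noncomputable def UP.ev (A : 𝔊 →* Matrix κ κ F) (m : ℕ) :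
    hom A m →ₗ[F] ((𝔊 ⧸ scal A) → F) where
  toFun φ q := φ.1 q.out
  map_add' _ _ := rfl
  map_smul' _ _ := rfl

theorem UP.ev_inj (A : 𝔊 →* Matrix κ κ F) (m : ℕ) : Function.Injective (UP.ev A m) := by
  intro φ ψ h
  apply Subtype.ext
  funext g
  have h1 : (QuotientGroup.mk (QuotientGroup.mk g : 𝔊 ⧸ scal A).out : 𝔊 ⧸ scal A) =
      QuotientGroup.mk g := QuotientGroup.out_eq' _
  obtain ⟨c, hc⟩ := (mk_eq_iff A _ _).1 h1
  rw [φ.2 _ _ c hc, ψ.2 _ _ c hc]
  congr 1
  exact congrFun h (QuotientGroup.mk g)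

theorem UP.ev_surj [Nonempty κ] (A : 𝔊 →* Matrix κ κ F) [Fintype (𝔊 ⧸ scal A)] (m : ℕ) :
    Function.Surjective (UP.ev A m) := by
  classical
  intro v
  refine ⟨∑ q, v q • trans A m (q.out)⁻¹ (delta A m), ?_⟩
  have h1 : ∀ q q' : 𝔊 ⧸ scal A, UP.ev A m (trans A m (q.out)⁻¹ (delta A m)) q' =
      if q' = q then 1 else 0 := by
    intro q q'
    show (delta A m).1 (q'.out * (q.out)⁻¹) = _
    split_ifs with h
    · subst h
      rw [mul_inv_cancel, delta_one]
    · rw [delta_neg A m]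
      rintro ⟨c, hc⟩
      apply h
      rw [← QuotientGroup.out_eq' q', ← QuotientGroup.out_eq' q, eq_comm]
      refine (mk_eq_iff A _ _).2 ⟨c, ?_⟩
      have h2 : A q'.out = A (q'.out * (q.out)⁻¹) * A q.out := by
        rw [← map_mul, inv_mul_cancel_right]
      rw [h2, hc, smul_mul_assoc, one_mul]
  rw [map_sum]
  funext q'
  rw [Finset.sum_apply]
  have h2 : ∀ q : 𝔊 ⧸ scal A, (UP.ev A m (v q • trans A m (q.out)⁻¹ (delta A m))) q' =
      if q' = q then v q else 0 := by
    intro q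
    rw [map_smul, Pi.smul_apply, h1, smul_eq_mul, mul_ite, mul_one, mul_zero]
  rw [Finset.sum_congr rfl fun q _ => h2 q, Finset.sum_ite_eq, if_pos (Finset.mem_univ _)]

theorem finrank_hom [Nonempty κ] (A : 𝔊 →* Matrix κ κ F) (hD : (scal A).index ≠ 0) (m : ℕ) :
    finrank F (hom A m) = (scal A).index := by
  have := Subgroup.fintypeOfIndexNeZero hD
  have h1 := (LinearEquiv.ofBijective (UP.ev A m) ⟨UP.ev_inj A m, UP.ev_surj A m⟩).finrank_eq
  rw [h1, finrank_fintype_fun_eq_card, Subgroup.index, Nat.card_eq_fintype_card]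

theorem built_le [Nonempty κ] {Ω : Type} [CommRing Ω] [IsDomain Ω] (C : Coh F 𝔊 Ω)
    (A : 𝔊 →* Matrix κ κ F) (hA : IsOpen {g | A g = 1}) (hD : (scal A).index ≠ 0) (m : ℕ)
    (X : Rp F 𝔊) (hX : Built A m X) : C.rk X ≤ finrank F X.N * C.rk (CC A hA hD m) := by
  induction hX with
  | base X h =>
    have := Subgroup.fintypeOfIndexNeZero hD
    let e := Module.finBasis F X.N
    let t : Hom (pw (CC A hA hD m) (Fin (finrank F X.N))) X :=
      { f := ThetaF A m X e
        eq := fun g Φ => ThetaF_eq A m X h e g Φ }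
    have h1 := rk_le_of_surj C t (ThetaF_surj A m X h e)
    rw [rk_pw, Fintype.card_fin] at h1
    exact h1
  | @ext X Y Z f g h _ _ ih1 ih2 =>
    have h1 := rk_exact_le C f g h
    have h2 := LinearMap.finrank_range_add_finrank_ker g.f
    have h3 : finrank F (LinearMap.range g.f) = finrank F Z.N := by
      rw [LinearMap.range_eq_top.mpr h.2.1, finrank_top]
    have h4 : LinearMap.ker g.f = LinearMap.range f.f := by
      ext y
      rw [LinearMap.mem_ker, LinearMap.mem_range]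
      exact h.2.2 y
    have h5 : finrank F (LinearMap.range f.f) = finrank F X.N :=
      LinearMap.finrank_range_of_inj h.1
    rw [h3, h4, h5] at h2
    rw [← h2, add_mul]
    omega

theorem UP.hom_le (A : 𝔊 →* Matrix κ κ F) (m m' : ℕ)
    (h : ∀ (g : 𝔊) (c : F), A g = c • (1 : Matrix κ κ F) → c ^ m = c ^ m') :
    hom A m ≤ hom A m' := by
  intro φ hφ g g' c hc
  have h1 : A (g' * g⁻¹) = c • (1 : Matrix κ κ F) := by
    rw [map_mul, hc, smul_mul_assoc, ← map_mul, mul_inv_cancel, map_one]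
  rw [hφ g g' c hc, h _ c h1]

theorem rk_CC_congr {Ω : Type} [CommRing Ω] [IsDomain Ω] (C : Coh F 𝔊 Ω) (A : 𝔊 →* Matrix κ κ F)
    (hA : IsOpen {g | A g = 1}) (hD : (scal A).index ≠ 0) (m m' : ℕ)
    (h : ∀ (g : 𝔊) (c : F), A g = c • (1 : Matrix κ κ F) → c ^ m = c ^ m') :
    C.rk (CC A hA hD m) = C.rk (CC A hA hD m') := by
  have h1 : hom A m ≤ hom A m' := UP.hom_le A m m' h
  have h2 : hom A m' ≤ hom A m := UP.hom_le A m' m fun g c hc => (h g c hc).symm
  let t : Hom (CC A hA hD m) (CC A hA hD m') :=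
    { f := Submodule.inclusion h1
      eq := fun g φ => rfl }
  refine rk_eq_of_bij C t ⟨?_, ?_⟩
  · exact Submodule.inclusion_injective h1
  · intro φ
    exact ⟨⟨φ.1, h2 φ.2⟩, rfl⟩

theorem built_congr (A : 𝔊 →* Matrix κ κ F) (m m' : ℕ)
    (h : ∀ (g : 𝔊) (c : F), A g = c • (1 : Matrix κ κ F) → c ^ m = c ^ m') (X : Rp F 𝔊)
    (hX : Built A m X) : Built A m' X := by
  induction hX with
  | base X hX =>
    refine Built.base X fun g c hg => ?_
    rw [hX g c hg, h g c hg]
  | ext f g h _ _ ih1 ih2 => exact Built.ext f g h ih1 ih2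

end Pool.Agent.K6.H87.SP
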